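import Pool.Agent.Lib.MP_b4ba8e_al.Proj

/-!
# MP_b4ba8e_al : the filtered Hecke algebra (module ADM, part 1)
-/

set_option autoImplicit false

namespace Pool.MP_b4ba8e

variable {G : Type*} [Group G]
variable {H : Type*} [NormedAddCommGroup H] [InnerProductSpace ℂ H] [CompleteSpace H]

/-- span of the Hecke operators of length at most `n` -/
def hs (π : G →* unitary (H →L[ℂ] H)) (V : Subgroup G) (L : G → ℕ) (n : ℕ) :
    Submodule ℂ (H →L[ℂ] H) :=
  Submodule.span ℂ ((fun g => hecke π V g) '' {g | L g ≤ n})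

theorem hecke_mem_hs (π : G →* unitary (H →L[ℂ] H)) (V : Subgroup G) (L : G → ℕ) {n : ℕ} {g : G}
    (h : L g ≤ n) : hecke π V g ∈ hs π V L n :=
  Submodule.subset_span ⟨g, h, rfl⟩

theorem hs_mono {π : G →* unitary (H →L[ℂ] H)} {V : Subgroup G} {L : G → ℕ} {m n : ℕ}
    (h : m ≤ n) : hs π V L m ≤ hs π V L n := by
  apply Submodule.span_mono
  rintro _ ⟨g, hg, rfl⟩
  exact ⟨g, le_trans hg h, rfl⟩

theorem hecke_star (π : G →* unitary (H →L[ℂ] H)) (V : Subgroup G) (g : G) :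
    star (hecke π V g) = hecke π V g⁻¹ := by
  unfold hecke
  rw [star_mul, star_mul, proj_star, proj_star_pi, mul_assoc]

theorem hecke_mul_left (π : G →* unitary (H →L[ℂ] H)) {V : Subgroup G} {v : G} (hv : v ∈ V)
    (g : G) : hecke π V (v * g) = hecke π V g := by
  unfold hecke
  rw [map_mul]
  simp only [Submonoid.coe_mul]
  rw [← mul_assoc, proj_P_mul_pi π hv]

theorem hecke_mul_right (π : G →* unitary (H →L[ℂ] H)) {V : Subgroup G} {v : G} (hv : v ∈ V)
    (g : G) : hecke π V (g * v) = hecke π V g := by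
  unfold hecke
  rw [map_mul]
  simp only [Submonoid.coe_mul]
  rw [mul_assoc, mul_assoc, proj_pi_mul_P π hv, mul_assoc]

theorem hs_star {π : G →* unitary (H →L[ℂ] H)} {V K : Subgroup G} {a : G} {L : G → ℕ}
    (hC : Cartan K a L) {n : ℕ} : ∀ s ∈ hs π V L n, star s ∈ hs π V L n := by
  intro s hs'
  unfold hs at hs' ⊢
  induction hs' using Submodule.span_induction with
  | mem x hx =>
    obtain ⟨g, hg, rfl⟩ := hx
    simp only
    rw [hecke_star]
    apply Submodule.subset_span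
    exact ⟨g⁻¹, by rw [Set.mem_ofPred_eq, hC.inv]; exact hg, rfl⟩
  | zero => rw [star_zero]; exact Submodule.zero_mem _
  | add x y _ _ hx hy => rw [star_add]; exact Submodule.add_mem _ hx hy
  | smul c x _ hx => rw [star_smul]; exact Submodule.smul_mem _ _ hx

theorem hs_mul {π : G →* unitary (H →L[ℂ] H)} {V K : Subgroup G} {a : G} {L : G → ℕ}
    (hC : Cartan K a L) (hVK : V ≤ K)
    (hfin : ∀ h : G, (V ⊓ V.map (MulAut.conj h).toMonoidHom).relIndex V ≠ 0) (m n : ℕ) :
    hs π V L m * hs π V L n ≤ hs π V L (m + n) := by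
  unfold hs
  rw [Submodule.span_mul_span, Submodule.span_le]
  rintro _ ⟨_, ⟨g, hg, rfl⟩, _, ⟨h, hh, rfl⟩, rfl⟩
  have h1 := hecke_mul_mem π V g h (hfin h)
  refine Submodule.span_mono ?_ h1
  rintro _ ⟨v, hv, rfl⟩
  refine ⟨g * v * h, ?_, rfl⟩
  rw [Set.mem_ofPred_eq] at *
  calc L (g * v * h) ≤ L (g * v) + L h := hC.mul_le _ _
    _ ≤ (L g + L v) + L h := by
        have := hC.mul_le g v
        omega
    _ ≤ m + n := by
        rw [hC.zero_of_mem v (hVK hv)]
        omega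

theorem hs_finrank {π : G →* unitary (H →L[ℂ] H)} {V K : Subgroup G} {a : G} {L : G → ℕ}
    (hC : Cartan K a L) (_hVK : V ≤ K) (hfin : V.relIndex K ≠ 0) (n : ℕ) :
    Module.Finite ℂ (hs π V L n) ∧
      Module.finrank ℂ (hs π V L n) ≤ (V.relIndex K) ^ 2 * (n + 1) := by
  classical
  have hfi : (V.subgroupOf K).FiniteIndex := ⟨hfin⟩
  let _ : Fintype (K ⧸ V.subgroupOf K) := Fintype.ofFinite _
  set f : (K ⧸ V.subgroupOf K) × (K ⧸ V.subgroupOf K) × Fin (n + 1) → (H →L[ℂ] H) := fun q =>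
    hecke π V (((q.1.out : K) : G)⁻¹ * a ^ (q.2.2 : ℕ) * ((q.2.1.out : K) : G)) with hf
  have hrep : ∀ k : K, ∃ v ∈ V, (k : G) =
      (((QuotientGroup.mk k : K ⧸ V.subgroupOf K).out : K) : G) * v := by
    intro k
    have h1 : ((QuotientGroup.mk k : K ⧸ V.subgroupOf K).out)⁻¹ * k ∈ V.subgroupOf K := by
      rw [← QuotientGroup.eq, QuotientGroup.out_eq']
    rw [Subgroup.mem_subgroupOf] at h1
    exact ⟨_, h1, by push_cast; group⟩
  have hle : hs π V L n ≤ Submodule.span ℂ (Set.range f) := by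
    unfold hs
    rw [Submodule.span_le]
    rintro _ ⟨g, hg, rfl⟩
    apply Submodule.subset_span
    obtain ⟨k₁, hk₁, k₂, hk₂, hgk⟩ := hC.decomp g
    obtain ⟨v, hv, h1⟩ := hrep (⟨k₁, hk₁⟩⁻¹ : K)
    obtain ⟨v', hv', h2⟩ := hrep ⟨k₂, hk₂⟩
    refine ⟨((QuotientGroup.mk (⟨k₁, hk₁⟩⁻¹ : K)), (QuotientGroup.mk (⟨k₂, hk₂⟩ : K)),
      ⟨L g, Nat.lt_succ_of_le hg⟩), ?_⟩
    rw [hf]
    simp only
    conv_rhs => rw [hgk]
    have h3 : k₁ = v⁻¹ *
        (((QuotientGroup.mk (⟨k₁, hk₁⟩⁻¹ : K) : K ⧸ V.subgroupOf K).out : K) : G)⁻¹ := by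
      have h4 := congrArg (fun x => x⁻¹) h1
      simp only [mul_inv_rev] at h4
      rw [← h4]
      simp
    have h5 : k₂ = (((QuotientGroup.mk (⟨k₂, hk₂⟩ : K) : K ⧸ V.subgroupOf K).out : K) : G) * v' :=
      h2
    have h6 : k₁ * a ^ L g * k₂ = v⁻¹ *
        ((((QuotientGroup.mk (⟨k₁, hk₁⟩⁻¹ : K) : K ⧸ V.subgroupOf K).out : K) : G)⁻¹ *
          a ^ L g * (((QuotientGroup.mk (⟨k₂, hk₂⟩ : K) : K ⧸ V.subgroupOf K).out : K) : G)) *
          v' := by
      conv_lhs => rw [h3, h5]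
      simp only [mul_assoc]
    rw [h6, hecke_mul_right π hv', hecke_mul_left π (V.inv_mem hv)]
  have hfd : FiniteDimensional ℂ (Submodule.span ℂ (Set.range f)) :=
    FiniteDimensional.span_of_finite ℂ (Set.finite_range f)
  refine ⟨Submodule.finiteDimensional_of_le hle, ?_⟩
  refine (Submodule.finrank_mono hle).trans ((finrank_range_le_card f).trans ?_)
  rw [Fintype.card_prod, Fintype.card_prod, Fintype.card_fin]
  have hcard : Fintype.card (K ⧸ V.subgroupOf K) = V.relIndex K := by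
    rw [← Nat.card_eq_fintype_card]
    rfl
  rw [hcard]
  apply le_of_eq
  ring

section Top

variable {G : Type*} [Group G] [TopologicalSpace G] [IsTopologicalGroup G]

theorem relIndex_ne_zero {V K : Subgroup G} (hKc : IsCompact (K : Set G))
    (hVo : IsOpen (V : Set G)) : V.relIndex K ≠ 0 := by
  have hc : CompactSpace K := isCompact_iff_compactSpace.1 hKc
  have ho : IsOpen ((V.subgroupOf K : Subgroup K) : Set K) := by
    rw [Subgroup.coe_subgroupOf]
    exact hVo.preimage continuous_subtype_val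
  have hf : Finite (K ⧸ V.subgroupOf K) := Subgroup.quotient_finite_of_isOpen _ ho
  have hfi : (V.subgroupOf K).FiniteIndex := Subgroup.finiteIndex_of_finite_quotient
  exact hfi.index_ne_zero

theorem relIndex_conj_ne_zero {V : Subgroup G} (hVc : IsCompact (V : Set G))
    (hVo : IsOpen (V : Set G)) (h : G) :
    (V ⊓ V.map (MulAut.conj h).toMonoidHom).relIndex V ≠ 0 := by
  apply relIndex_ne_zero hVc
  rw [Subgroup.coe_inf]
  apply hVo.inter
  have h1 : ((V.map (MulAut.conj h).toMonoidHom : Subgroup G) : Set G) =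
      (fun x => h⁻¹ * x * h) ⁻¹' (V : Set G) := by
    ext x
    simp only [Subgroup.coe_map, MulEquiv.coe_toMonoidHom, MulAut.conj_apply, Set.mem_image,
      SetLike.mem_coe, Set.mem_preimage]
    constructor
    · rintro ⟨y, hy, rfl⟩
      have : h⁻¹ * (h * y * h⁻¹) * h = y := by group
      rwa [this]
    · intro hx
      exact ⟨_, hx, by group⟩
  rw [h1]
  exact hVo.preimage (by fun_prop)

end Top

end Pool.MP_b4ba8e
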