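import Pool.Agent.Lib.MP_b4ba8e_al.Defs

/-!
# MP_b4ba8e_al, module TIDY : Willis' tidy above
-/

set_option autoImplicit false

open Topology

namespace Pool.MP_b4ba8e

section Tidy

variable {G : Type*} [Group G]

theorem tidy_conj_mem {U : Subgroup G} {a : G} {s : Set ℤ} (m : ℤ) {x : G} :
    a ^ m * x * a ^ (-m) ∈ conjInter U a s ↔ x ∈ conjInter U a {k | k + m ∈ s} := by
  rw [mem_conjInter, mem_conjInter]
  have key : ∀ k : ℤ, a ^ (-(k + m)) * (a ^ m * x * a ^ (-m)) * a ^ (k + m) =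
      a ^ (-k) * x * a ^ k := by
    intro k
    rw [show -(k + m) = -k + -m by ring, zpow_add, show k + m = m + k by ring, zpow_add]
    group
  constructor
  · intro h k hk
    have := h (k + m) hk
    rwa [key] at this
  · intro h k hk
    have := h (k - m) (by simpa using hk)
    rw [← key (k - m)] at this
    simpa using this

theorem tidy_mono {U : Subgroup G} {a : G} {s t : Set ℤ} (h : s ⊆ t) :
    conjInter U a t ≤ conjInter U a s := by
  intro x hx
  rw [mem_conjInter] at hx ⊢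
  exact fun k hk => hx k (h hk)

theorem tidy_union {U : Subgroup G} {a : G} {s t r : Set ℤ} (h : r ⊆ s ∪ t) {x : G}
    (hs : x ∈ conjInter U a s) (ht : x ∈ conjInter U a t) : x ∈ conjInter U a r := by
  rw [mem_conjInter] at hs ht ⊢
  intro k hk
  rcases h hk with h1 | h1
  · exact hs k h1
  · exact ht k h1

theorem tidy_coe {U : Subgroup G} {a : G} {s : Set ℤ} :
    (conjInter U a s : Set G) = ⋂ k ∈ s, {x : G | a ^ (-k) * x * a ^ k ∈ U} := by
  ext x
  simp only [SetLike.mem_coe, mem_conjInter, Set.mem_iInter, Set.mem_ofPred_eq]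

theorem tidy_le {U : Subgroup G} {a : G} {s : Set ℤ} (h0 : (0 : ℤ) ∈ s) :
    conjInter U a s ≤ U := by
  intro x hx
  rw [mem_conjInter] at hx
  simpa using hx 0 h0

variable [TopologicalSpace G] [IsTopologicalGroup G]

theorem tidy_isClosed {U : Subgroup G} (hUo : IsOpen (U : Set G)) (a : G) (s : Set ℤ) :
    IsClosed (conjInter U a s : Set G) := by
  rw [tidy_coe]
  refine isClosed_biInter fun k _ => ?_
  have hUc : IsClosed (U : Set G) := U.isClosed_of_isOpen hUo
  exact hUc.preimage (f := fun x : G => a ^ (-k) * x * a ^ k) (by fun_prop)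

theorem tidy_isOpen {U : Subgroup G} (hUo : IsOpen (U : Set G)) (a : G) {s : Set ℤ}
    (hs : s.Finite) : IsOpen (conjInter U a s : Set G) := by
  rw [tidy_coe]
  refine hs.isOpen_biInter fun k _ => ?_
  exact hUo.preimage (f := fun x : G => a ^ (-k) * x * a ^ k) (by fun_prop)

theorem tidy_isCompact {U : Subgroup G} (hUo : IsOpen (U : Set G)) (hUc : IsCompact (U : Set G))
    (a : G) {s : Set ℤ} (h0 : (0 : ℤ) ∈ s) : IsCompact (conjInter U a s : Set G) :=
  hUc.of_isClosed_subset (tidy_isClosed hUo a s) (tidy_le h0)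

/-- the first step: `U_[0,n] ⊆ U_+ U_[-1,0]` for some `n` -/
theorem tidy_step1 {U : Subgroup G} (hUo : IsOpen (U : Set G)) (hUc : IsCompact (U : Set G))
    (a : G) : ∃ n : ℕ, ∀ x ∈ conjInter U a (Set.Icc 0 (n : ℤ)),
      ∃ y ∈ conjInter U a (Set.Ici 0), y⁻¹ * x ∈ conjInter U a (Set.Icc (-1) 0) := by
  set O : Set G := {x | ∃ y ∈ conjInter U a (Set.Ici 0), y⁻¹ * x ∈ conjInter U a (Set.Icc (-1) 0)}
    with hO
  have hOo : IsOpen O := by
    have : O = ⋃ y ∈ conjInter U a (Set.Ici 0),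
        (fun x : G => y⁻¹ * x) ⁻¹' (conjInter U a (Set.Icc (-1) 0) : Set G) := by
      ext x
      simp [hO]
    rw [this]
    refine isOpen_biUnion fun y _ => ?_
    exact (tidy_isOpen hUo a (Set.finite_Icc _ _)).preimage (by fun_prop)
  have hsub : ∀ x ∈ ⋂ n : ℕ, (conjInter U a (Set.Icc 0 (n : ℤ)) : Set G), O ∈ 𝓝 x := by
    intro x hx
    refine hOo.mem_nhds ?_
    refine ⟨x, ?_, ?_⟩
    · rw [mem_conjInter]
      intro k hk
      have hk' : (0 : ℤ) ≤ k := hk
      have h1 := Set.mem_iInter.1 hx k.toNat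
      rw [SetLike.mem_coe, mem_conjInter] at h1
      exact h1 k ⟨hk', by rw [Int.toNat_of_nonneg hk']⟩
    · rw [inv_mul_cancel]
      exact Subgroup.one_mem _
  obtain ⟨n, hn⟩ := exists_subset_nhds_of_isCompact'
    (V := fun n : ℕ => (conjInter U a (Set.Icc 0 (n : ℤ)) : Set G))
    (directed_of_isDirected_le fun m n hmn => by
      apply tidy_mono
      exact Set.Icc_subset_Icc le_rfl (by exact_mod_cast hmn))
    (fun n => tidy_isCompact hUo hUc a ⟨le_rfl, by positivity⟩)
    (fun n => tidy_isClosed hUo a _) hsub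
  exact ⟨n, fun x hx => hn hx⟩

omit [TopologicalSpace G] [IsTopologicalGroup G] in
/-- the inductive step -/
theorem tidy_step2 {U : Subgroup G} {a : G} {n : ℕ}
    (hn : ∀ x ∈ conjInter U a (Set.Icc 0 (n : ℤ)),
      ∃ y ∈ conjInter U a (Set.Ici 0), y⁻¹ * x ∈ conjInter U a (Set.Icc (-1) 0)) :
    ∀ k : ℕ, ∀ x ∈ conjInter U a (Set.Icc 0 (n : ℤ)),
      ∃ y ∈ conjInter U a (Set.Ici 0), y⁻¹ * x ∈ conjInter U a (Set.Icc (-(k : ℤ)) n) := by
  have hstep : ∀ m : ℤ, (n : ℤ) ≤ m → ∀ x ∈ conjInter U a (Set.Icc 0 m),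
      ∃ y ∈ conjInter U a (Set.Ici 0), y⁻¹ * x ∈ conjInter U a (Set.Icc (-1) m) := by
    intro m hm x hx
    obtain ⟨y, hy, hz⟩ := hn x (tidy_mono (Set.Icc_subset_Icc le_rfl hm) hx)
    refine ⟨y, hy, ?_⟩
    refine tidy_union (s := Set.Icc (-1) 0) (t := Set.Icc 0 m) ?_ hz ?_
    · intro k hk
      rcases le_total k 0 with h | h
      · exact Or.inl ⟨hk.1, h⟩
      · exact Or.inr ⟨h, hk.2⟩
    · refine Subgroup.mul_mem _ (Subgroup.inv_mem _ (tidy_mono ?_ hy)) hx
      exact fun k hk => hk.1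
  intro k
  induction k with
  | zero =>
      intro x hx
      refine ⟨1, Subgroup.one_mem _, ?_⟩
      simpa using hx
  | succ k ih =>
      intro x hx
      obtain ⟨y, hy, hz⟩ := ih x hx
      set z := y⁻¹ * x with hzdef
      have h1 : a ^ (k : ℤ) * z * a ^ (-(k : ℤ)) ∈ conjInter U a (Set.Icc 0 ((n : ℤ) + k)) := by
        rw [tidy_conj_mem]
        refine tidy_mono ?_ hz
        intro i hi
        simp only [Set.mem_ofPred_eq, Set.mem_Icc] at hi ⊢
        omega
      obtain ⟨y', hy', hz'⟩ := hstep ((n : ℤ) + k) (by omega) _ h1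
      -- conjugate back
      refine ⟨y * (a ^ (-(k : ℤ)) * y' * a ^ (k : ℤ)), Subgroup.mul_mem _ hy ?_, ?_⟩
      · have h2 := (tidy_conj_mem (U := U) (a := a) (s := Set.Ici 0) (-(k : ℤ)) (x := y')).2 ?_
        · rwa [neg_neg] at h2
        · refine tidy_mono ?_ hy'
          intro i hi
          simp only [Set.mem_ofPred_eq, Set.mem_Ici] at hi ⊢
          omega
      · have h3 : (y * (a ^ (-(k : ℤ)) * y' * a ^ (k : ℤ)))⁻¹ * x =
            a ^ (-(k : ℤ)) * (y'⁻¹ * (a ^ (k : ℤ) * z * a ^ (-(k : ℤ)))) * a ^ (- -(k : ℤ)) := by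
          rw [hzdef]
          simp only [zpow_neg, mul_inv_rev, inv_inv, mul_assoc]
          simp
        rw [h3, tidy_conj_mem]
        refine tidy_mono ?_ hz'
        intro i hi
        simp only [Set.mem_ofPred_eq, Set.mem_Icc] at hi ⊢
        push_cast at hi
        omega

theorem exists_tidy_above {G : Type*} [Group G] [TopologicalSpace G] [IsTopologicalGroup G]
    (U : Subgroup G) (hUo : IsOpen (U : Set G)) (hUc : IsCompact (U : Set G)) (a : G) :
    ∃ V Vp Vm : Subgroup G, IsOpen (V : Set G) ∧ V ≤ U ∧ Vp ≤ V ∧ Vm ≤ V ∧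
      (∀ x ∈ V, ∃ y ∈ Vp, ∃ z ∈ Vm, x = y * z) ∧
      (∀ x ∈ Vp, a⁻¹ * x * a ∈ Vp) ∧ (∀ x ∈ Vm, a * x * a⁻¹ ∈ Vm) := by
  obtain ⟨n, hn⟩ := tidy_step1 hUo hUc a
  have h2 := tidy_step2 hn
  refine ⟨conjInter U a (Set.Icc 0 (n : ℤ)), conjInter U a (Set.Ici 0),
    conjInter U a (Set.Iic (n : ℤ)), tidy_isOpen hUo a (Set.finite_Icc _ _),
    tidy_le ⟨le_rfl, by positivity⟩, tidy_mono (fun k hk => hk.1), tidy_mono (fun k hk => hk.2),
    ?_, ?_, ?_⟩
  · intro x hx
    -- compactness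
    have hne : (⋂ k : ℕ, ((conjInter U a (Set.Ici 0) : Set G) ∩
        {y : G | y⁻¹ * x ∈ conjInter U a (Set.Icc (-(k : ℤ)) n)})).Nonempty := by
      apply IsCompact.nonempty_iInter_of_directed_nonempty_isCompact_isClosed
      · refine directed_of_isDirected_le fun i j hij => ?_
        refine Set.inter_subset_inter_right _ ?_
        intro y hy
        exact tidy_mono (Set.Icc_subset_Icc (by
          have : (i : ℤ) ≤ j := by exact_mod_cast hij
          omega) le_rfl) hy
      · intro k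
        obtain ⟨y, hy, hz⟩ := h2 k x hx
        exact ⟨y, hy, hz⟩
      · intro k
        refine (tidy_isCompact hUo hUc a (s := Set.Ici 0) (by simp)).inter_right ?_
        exact (tidy_isClosed hUo a _).preimage (f := fun y : G => y⁻¹ * x) (by fun_prop)
      · intro k
        refine (tidy_isClosed hUo a _).inter ?_
        exact (tidy_isClosed hUo a _).preimage (f := fun y : G => y⁻¹ * x) (by fun_prop)
    obtain ⟨y, hy⟩ := hne
    rw [Set.mem_iInter] at hy
    refine ⟨y, (hy 0).1, y⁻¹ * x, ?_, by group⟩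
    rw [mem_conjInter]
    intro i hi
    have h3 := (hy i.natAbs).2
    rw [Set.mem_ofPred_eq, mem_conjInter] at h3
    refine h3 i ⟨?_, hi⟩
    omega
  · intro x hx
    have h3 := (tidy_conj_mem (U := U) (a := a) (s := Set.Ici 0) (-1) (x := x)).2 ?_
    · simpa using h3
    · refine tidy_mono ?_ hx
      intro i hi
      simp only [Set.mem_ofPred_eq, Set.mem_Ici] at hi ⊢
      omega
  · intro x hx
    have h3 := (tidy_conj_mem (U := U) (a := a) (s := Set.Iic (n : ℤ)) 1 (x := x)).2 ?_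
    · simpa using h3
    · refine tidy_mono ?_ hx
      intro i hi
      simp only [Set.mem_ofPred_eq, Set.mem_Iic] at hi ⊢
      omega

end Tidy

end Pool.MP_b4ba8e
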