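import Pool.Agent.Lib.MP_b4ba8e_al.Corner
import Pool.Agent.Lib.MP_b4ba8e_al.Adm1
import Pool.Agent.Lib.MP_b4ba8e_al.Tidy

/-!
# MP_b4ba8e_al : admissibility of irreducible representations (module ADM).
-/

set_option autoImplicit false
set_option linter.unusedSectionVars false

namespace Pool.MP_b4ba8e

variable {G : Type*} [Group G] [TopologicalSpace G] [IsTopologicalGroup G]
variable {H : Type*} [NormedAddCommGroup H] [InnerProductSpace ℂ H] [CompleteSpace H]

theorem finiteDimensional_fixedVec (K : Subgroup G) (hKo : IsOpen (K : Set G))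
    (hKc : IsCompact (K : Set G)) (a : G) (L : G → ℕ) (hC : Cartan K a L)
    (W : Subgroup G) (hWo : IsOpen (W : Set G)) (hWK : W ≤ K)
    (hWn : ∀ k ∈ K, ∀ w ∈ W, k * w * k⁻¹ ∈ W)
    (π : G →* unitary (H →L[ℂ] H))
    (hirr : ∀ Y : Submodule ℂ H, IsClosed (Y : Set H) →
      (∀ g : G, ∀ v ∈ Y, (π g : H →L[ℂ] H) v ∈ Y) → Y = ⊥ ∨ Y = ⊤) :
    FiniteDimensional ℂ (fixedVec π W) := by
  have hWc : IsCompact (W : Set G) :=
    hKc.of_isClosed_subset (Subgroup.isClosed_of_isOpen W hWo) hWK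
  obtain ⟨V, Vp, Vm, hVo, hVW, hVpV, hVmV, hfact, hap, ham⟩ := exists_tidy_above W hWo hWc a
  have hVK : V ≤ K := hVW.trans hWK
  have hVc : IsCompact (V : Set G) :=
    hKc.of_isClosed_subset (Subgroup.isClosed_of_isOpen V hVo) hVK
  have hVfin : V.relIndex K ≠ 0 := relIndex_ne_zero hKc hVo
  have hVWfin : V.relIndex W ≠ 0 := relIndex_ne_zero hWc hVo
  have hVconj : ∀ h, (V ⊓ V.map (MulAut.conj h).toMonoidHom).relIndex V ≠ 0 := fun h =>
    relIndex_conj_ne_zero hVc hVo h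
  have hPV : P π V = hecke π V 1 := by
    rw [hecke, map_one]
    show P π V = P π V * 1 * P π V
    rw [mul_one, proj_idem]
  have hmem : ∀ g n, L g ≤ n → hecke π V g ∈ hs π V L n := fun g n h => hecke_mem_hs π V L h
  have hL1 : L 1 = 0 := hC.zero_of_mem 1 K.one_mem
  have hEl : ∀ s ∈ hs π V L 1, P π V * s = s := by
    intro s hs'
    unfold hs at hs'
    induction hs' using Submodule.span_induction with
    | mem x hx =>
      obtain ⟨g, _, rfl⟩ := hx
      show P π V * (P π V * (π g : H →L[ℂ] H) * P π V) = _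
      rw [← mul_assoc, ← mul_assoc, proj_idem]
      rfl
    | zero => rw [mul_zero]
    | add x y _ _ hx hy => rw [mul_add, hx, hy]
    | smul c x _ hx => rw [mul_smul_comm, hx]
  have hEW : P π V * P π W = P π W := proj_P_mul_P_of_le π hVW
  have hWE : P π W * P π V = P π W := proj_P_mul_P_of_le' π hVW
  have hPW : P π W ∈ hs π V L 1 := by
    have h1 := P_mem_span_hecke π V W hVW hVWfin
    refine (Submodule.span_le.mpr ?_) h1
    rintro _ ⟨w, hw, rfl⟩
    exact hmem w 1 (by rw [hC.zero_of_mem w (hWK hw)]; exact Nat.zero_le _)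
  -- `P_W π(k) = π(k) P_W` for `k ∈ K`
  have hcomm : ∀ k ∈ K, P π W * (π k : H →L[ℂ] H) = P π W * (π k : H →L[ℂ] H) * P π W := by
    intro k hk
    -- `π(k⁻¹)` preserves `H^W`
    have h1 : P π W * ((π k⁻¹ : H →L[ℂ] H) * P π W) = (π k⁻¹ : H →L[ℂ] H) * P π W := by
      apply proj_mul_of_range
      intro η w hw
      show (π w : H →L[ℂ] H) ((π k⁻¹ : H →L[ℂ] H) (P π W η)) = (π k⁻¹ : H →L[ℂ] H) (P π W η)
      rw [← proj_smul]
      have h2 : w * k⁻¹ = k⁻¹ * (k * w * k⁻¹) := by group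
      rw [h2, proj_smul, proj_mem π W η _ (hWn k hk w hw)]
    have h3 := congrArg star h1
    rw [star_mul, star_mul, proj_star, proj_star_pi, inv_inv] at h3
    exact h3.symm
  have hcomm' : ∀ k ∈ K, (π k : H →L[ℂ] H) * P π W = P π W * (π k : H →L[ℂ] H) * P π W := by
    intro k hk
    have h3 := congrArg star (hcomm k⁻¹ (K.inv_mem hk))
    rw [star_mul, star_mul, star_mul, proj_star, proj_star_pi, inv_inv, ← mul_assoc] at h3
    exact h3
  set R := Algebra.adjoin ℂ (hs π V L 1 : Set (H →L[ℂ] H)) with hR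
  have hPWR : P π W ∈ R := Algebra.subset_adjoin hPW
  -- `P_W π(g) P_W ∈ R` when `T_g ∈ R`
  have hcut : ∀ g, hecke π V g ∈ R → P π W * (π g : H →L[ℂ] H) * P π W ∈ R := by
    intro g hg
    have h1 : P π W * (π g : H →L[ℂ] H) * P π W = P π W * hecke π V g * P π W := by
      rw [hecke]
      calc P π W * (π g : H →L[ℂ] H) * P π W
          = (P π W * P π V) * (π g : H →L[ℂ] H) * (P π V * P π W) := by rw [hWE, hEW]
        _ = P π W * (P π V * (π g : H →L[ℂ] H) * P π V) * P π W := by simp only [mul_assoc]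
    rw [h1]
    exact R.mul_mem (R.mul_mem hPWR hg) hPWR
  have hPg : ∀ g, P π W * (π g : H →L[ℂ] H) * P π W ∈ R := by
    intro g
    obtain ⟨k₁, hk₁, k₂, hk₂, hg⟩ := hC.decomp g
    have h1 : P π W * (π g : H →L[ℂ] H) * P π W =
        (P π W * (π k₁ : H →L[ℂ] H) * P π W) *
          (P π W * (π (a ^ L g) : H →L[ℂ] H) * P π W) *
          (P π W * (π k₂ : H →L[ℂ] H) * P π W) := by
      have hg' : (π g : H →L[ℂ] H) =
          (π k₁ : H →L[ℂ] H) * (π (a ^ L g) : H →L[ℂ] H) * (π k₂ : H →L[ℂ] H) := by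
        conv_lhs => rw [hg, map_mul, map_mul]
        rfl
      rw [hg']
      calc P π W * ((π k₁ : H →L[ℂ] H) * (π (a ^ L g) : H →L[ℂ] H) * (π k₂ : H →L[ℂ] H)) * P π W
          = (P π W * (π k₁ : H →L[ℂ] H)) * (π (a ^ L g) : H →L[ℂ] H) *
              ((π k₂ : H →L[ℂ] H) * P π W) := by simp only [mul_assoc]
        _ = (P π W * (π k₁ : H →L[ℂ] H) * P π W) * (π (a ^ L g) : H →L[ℂ] H) *
              (P π W * (π k₂ : H →L[ℂ] H) * P π W) := by rw [← hcomm' k₂ hk₂, ← hcomm k₁ hk₁]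
        _ = (P π W * (π k₁ : H →L[ℂ] H) * (P π W * P π W)) * (π (a ^ L g) : H →L[ℂ] H) *
              ((P π W * P π W) * (π k₂ : H →L[ℂ] H) * P π W) := by rw [proj_idem]
        _ = _ := by simp only [mul_assoc]
    rw [h1]
    refine R.mul_mem (R.mul_mem (hcut _ ?_) (hcut _ ?_)) (hcut _ ?_)
    · exact Algebra.subset_adjoin (hmem _ _ (by rw [hC.zero_of_mem k₁ hk₁]; exact Nat.zero_le _))
    · rcases Nat.eq_zero_or_pos (L g) with h0 | hpos
      · rw [h0, pow_zero]
        exact Algebra.subset_adjoin (hmem _ _ (by rw [hL1]; exact Nat.zero_le _))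
      · obtain ⟨m, hm⟩ := Nat.exists_eq_succ_of_ne_zero hpos.ne'
        rw [hm, Nat.succ_eq_add_one, hecke_pow π V Vp Vm a hVpV hVmV hfact hap ham m]
        exact R.pow_mem (Algebra.subset_adjoin (hmem _ _ hC.le_one)) _
    · exact Algebra.subset_adjoin (hmem _ _ (by rw [hC.zero_of_mem k₂ hk₂]; exact Nat.zero_le _))
  exact corner_finite π W hirr (hs π V L) ((V.relIndex K) ^ 2) (P π V)
    (by rw [hPV]; exact hmem 1 0 hL1.le) (hs_mono (Nat.zero_le 1)) (hs_star hC)
    (fun n => hs_mul hC hVK hVconj n 1) (fun n => hs_finrank hC hVK hVfin n) hEl hEW hPW hPg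

end Pool.MP_b4ba8e
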