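import Pool.Agent.Lib.MP_b4ba8e_al.Defs

/-!
# MP_b4ba8e_al : projections on fixed vectors (module PROJ)
-/

set_option autoImplicit false

namespace Pool.MP_b4ba8e

variable {G : Type*} [Group G]
variable {H : Type*} [NormedAddCommGroup H] [InnerProductSpace ℂ H] [CompleteSpace H]

/-! ### basic facts -/

theorem proj_mem (π : G →* unitary (H →L[ℂ] H)) (X : Subgroup G) (η : H) :
    P π X η ∈ fixedVec π X := Submodule.starProjection_apply_mem _ _

theorem proj_of_mem {π : G →* unitary (H →L[ℂ] H)} {X : Subgroup G} {η : H}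
    (h : η ∈ fixedVec π X) : P π X η = η := Submodule.starProjection_eq_self_iff.2 h

theorem proj_star (π : G →* unitary (H →L[ℂ] H)) (X : Subgroup G) :
    star (P π X) = P π X := isSelfAdjoint_starProjection _

theorem proj_smul (π : G →* unitary (H →L[ℂ] H)) (g h : G) (η : H) :
    (π (g * h) : H →L[ℂ] H) η = (π g : H →L[ℂ] H) ((π h : H →L[ℂ] H) η) := by
  rw [map_mul]
  rfl

theorem proj_one (π : G →* unitary (H →L[ℂ] H)) (η : H) :
    (π 1 : H →L[ℂ] H) η = η := by
  rw [map_one]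
  rfl

theorem proj_star_pi (π : G →* unitary (H →L[ℂ] H)) (g : G) :
    star (π g : H →L[ℂ] H) = (π g⁻¹ : H →L[ℂ] H) := by
  rw [map_inv]
  rfl

theorem proj_norm (π : G →* unitary (H →L[ℂ] H)) (g : G) (η : H) :
    ‖(π g : H →L[ℂ] H) η‖ = ‖η‖ := Unitary.norm_map _ _

/-- if `A` has range in the fixed vectors then `P A = A`. -/
theorem proj_mul_of_range {π : G →* unitary (H →L[ℂ] H)} {X : Subgroup G} {A : H →L[ℂ] H}
    (h : ∀ η, A η ∈ fixedVec π X) : P π X * A = A := by
  ext η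
  exact proj_of_mem (h η)

theorem proj_pi_mul_P (π : G →* unitary (H →L[ℂ] H)) {X : Subgroup G} {x : G} (hx : x ∈ X) :
    (π x : H →L[ℂ] H) * P π X = P π X := by
  ext η
  exact proj_mem π X η x hx

theorem proj_P_mul_pi (π : G →* unitary (H →L[ℂ] H)) {X : Subgroup G} {x : G} (hx : x ∈ X) :
    P π X * (π x : H →L[ℂ] H) = P π X := by
  have h := congrArg star (proj_pi_mul_P π (X.inv_mem hx))
  rw [star_mul, proj_star, proj_star_pi, inv_inv] at h
  exact h

theorem proj_P_mul_P_of_le (π : G →* unitary (H →L[ℂ] H)) {X Y : Subgroup G} (h : X ≤ Y) :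
    P π X * P π Y = P π Y := by
  apply proj_mul_of_range
  intro η x hx
  exact proj_mem π Y η x (h hx)

theorem proj_P_mul_P_of_le' (π : G →* unitary (H →L[ℂ] H)) {X Y : Subgroup G} (h : X ≤ Y) :
    P π Y * P π X = P π Y := by
  have h1 := congrArg star (proj_P_mul_P_of_le π h)
  rw [star_mul, proj_star, proj_star] at h1
  exact h1

theorem proj_idem (π : G →* unitary (H →L[ℂ] H)) (X : Subgroup G) :
    P π X * P π X = P π X := proj_P_mul_P_of_le π le_rfl

/-! ### the closed convex hull of an orbit -/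

/-- the closed convex hull of the orbit -/
def projHull (π : G →* unitary (H →L[ℂ] H)) (X : Subgroup G) (η : H) : Set H :=
  closure (convexHull ℝ ((fun x : G => (π x : H →L[ℂ] H) η) '' (X : Set G)))

theorem projHull_self (π : G →* unitary (H →L[ℂ] H)) (X : Subgroup G) (η : H) :
    η ∈ projHull π X η := by
  apply subset_closure
  apply subset_convexHull
  exact ⟨1, X.one_mem, proj_one π η⟩

theorem projHull_convex (π : G →* unitary (H →L[ℂ] H)) (X : Subgroup G) (η : H) :
    Convex ℝ (projHull π X η) := (convex_convexHull ℝ _).closure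

/-- closed convex sets containing the orbit contain the hull -/
theorem projHull_sub {π : G →* unitary (H →L[ℂ] H)} {X : Subgroup G} {η : H} {C : Set H}
    (hcl : IsClosed C) (hcv : Convex ℝ C) (h : ∀ x ∈ X, (π x : H →L[ℂ] H) η ∈ C) :
    projHull π X η ⊆ C := by
  apply closure_minimal _ hcl
  apply convexHull_min _ hcv
  rintro _ ⟨x, hx, rfl⟩
  exact h x hx

theorem projHull_smul {π : G →* unitary (H →L[ℂ] H)} {X : Subgroup G} {η : H} {x : G}
    (hx : x ∈ X) {ζ : H} (hζ : ζ ∈ projHull π X η) :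
    (π x : H →L[ℂ] H) ζ ∈ projHull π X η := by
  have h : projHull π X η ⊆ (fun ζ => (π x : H →L[ℂ] H) ζ) ⁻¹' (projHull π X η) := by
    apply projHull_sub
    · exact isClosed_closure.preimage (π x : H →L[ℂ] H).continuous
    · exact (projHull_convex π X η).linear_preimage
        ((π x : H →L[ℂ] H).toLinearMap.restrictScalars ℝ)
    · intro y hy
      show (π x : H →L[ℂ] H) ((π y : H →L[ℂ] H) η) ∈ projHull π X η
      rw [← proj_smul]
      apply subset_closure
      apply subset_convexHull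
      exact ⟨x * y, X.mul_mem hx hy, rfl⟩
  exact h hζ

theorem proj_hull_const {π : G →* unitary (H →L[ℂ] H)} {X : Subgroup G} {η ζ : H}
    (hζ : ζ ∈ projHull π X η) : P π X ζ = P π X η := by
  have h : projHull π X η ⊆ {ζ | P π X ζ = P π X η} := by
    apply projHull_sub
    · exact isClosed_eq (P π X).continuous continuous_const
    · have h1 : {ζ | P π X ζ = P π X η} =
          ((P π X).toLinearMap.restrictScalars ℝ) ⁻¹' {P π X η} := rfl
      rw [h1]
      exact (convex_singleton _).linear_preimage _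
    · intro x hx
      show (P π X * (π x : H →L[ℂ] H)) η = P π X η
      rw [proj_P_mul_pi π hx]
  exact h hζ

theorem proj_exists_min (C : Set H) (hne : C.Nonempty) (hcl : IsClosed C) (hconv : Convex ℝ C) :
    ∃ ξ ∈ C, ∀ ζ ∈ C, ‖ξ‖ ≤ ‖ζ‖ := by
  let _ : InnerProductSpace ℝ H := InnerProductSpace.rclikeToReal ℂ H
  obtain ⟨ξ, hξ, h⟩ := exists_norm_eq_iInf_of_complete_convex hne hcl.isComplete hconv (0 : H)
  refine ⟨ξ, hξ, fun ζ hζ => ?_⟩
  rw [zero_sub, norm_neg] at h
  rw [h]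
  have h2 := ciInf_le (f := fun w : C => ‖(0 : H) - w‖)
    ⟨0, Set.forall_mem_range.2 fun _ => norm_nonneg _⟩ ⟨ζ, hζ⟩
  simpa using h2

/-- `P_X η` is in the closed convex hull of the orbit of `η`. -/
theorem P_mem_closure_convexHull (π : G →* unitary (H →L[ℂ] H)) (X : Subgroup G) (η : H) :
    P π X η ∈ closure (convexHull ℝ ((fun x : G => (π x : H →L[ℂ] H) η) '' (X : Set G))) := by
  show P π X η ∈ projHull π X η
  obtain ⟨ξ, hξ, hmin⟩ := proj_exists_min (projHull π X η) ⟨η, projHull_self π X η⟩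
    isClosed_closure (projHull_convex π X η)
  have hfix : ξ ∈ fixedVec π X := by
    intro x hx
    have h1 : (π x : H →L[ℂ] H) ξ ∈ projHull π X η := projHull_smul hx hξ
    have h2 : (2⁻¹ : ℝ) • ξ + (2⁻¹ : ℝ) • (π x : H →L[ℂ] H) ξ ∈ projHull π X η :=
      projHull_convex π X η hξ h1 (by norm_num) (by norm_num) (by norm_num)
    have h3 := hmin _ h2
    rw [← smul_add, norm_smul] at h3
    have h4 : ‖(2⁻¹ : ℝ)‖ = 2⁻¹ := by norm_num
    rw [h4] at h3
    have h5 := parallelogram_law_with_norm ℂ ξ ((π x : H →L[ℂ] H) ξ)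
    rw [proj_norm] at h5
    have h6 : 2 * ‖ξ‖ ≤ ‖ξ + (π x : H →L[ℂ] H) ξ‖ := by linarith
    have h7 : ‖ξ - (π x : H →L[ℂ] H) ξ‖ * ‖ξ - (π x : H →L[ℂ] H) ξ‖ ≤ 0 := by
      nlinarith [norm_nonneg ξ]
    have h8 : ‖ξ - (π x : H →L[ℂ] H) ξ‖ = 0 := by
      have := mul_self_nonneg ‖ξ - (π x : H →L[ℂ] H) ξ‖
      exact mul_self_eq_zero.1 (le_antisymm h7 this)
    rw [norm_eq_zero, sub_eq_zero] at h8
    exact h8.symm
  rw [← proj_hull_const hξ, proj_of_mem hfix]
  exact hξ

/-! ### factorizations -/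

theorem P_eq_of_factor (π : G →* unitary (H →L[ℂ] H)) (V Vp Vm : Subgroup G)
    (hp : Vp ≤ V) (hm : Vm ≤ V) (hV : ∀ x ∈ V, ∃ y ∈ Vp, ∃ z ∈ Vm, x = y * z) :
    P π V = P π Vp * P π Vm ∧ P π V = P π Vm * P π Vp := by
  have h1 : P π V = P π Vp * P π Vm := by
    ext η
    show P π V η = P π Vp (P π Vm η)
    have h2 : P π V η = P π V (P π Vm η) := by
      have := proj_P_mul_P_of_le' π hm
      conv_lhs => rw [← this]
      rfl
    rw [h2]
    set η' := P π Vm η with hη'
    have h3 : P π V η' ∈ projHull π Vp η' := by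
      have h4 : projHull π V η' ⊆ projHull π Vp η' := by
        apply projHull_sub isClosed_closure (projHull_convex π Vp η')
        intro x hx
        obtain ⟨y, hy, z, hz, rfl⟩ := hV x hx
        rw [proj_smul]
        have h5 : (π z : H →L[ℂ] H) η' = η' := proj_mem π Vm η z hz
        rw [h5]
        exact projHull_smul hy (projHull_self π Vp η')
      exact h4 (P_mem_closure_convexHull π V η')
    rw [← proj_hull_const h3]
    symm
    apply proj_of_mem
    intro x hx
    exact proj_mem π V η' x (hp hx)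
  refine ⟨h1, ?_⟩
  have h2 := congrArg star h1
  rw [star_mul, proj_star, proj_star, proj_star] at h2
  exact h2

theorem proj_conj_pow_mem {Vm : Subgroup G} {a : G}
    (ham : ∀ x ∈ Vm, a * x * a⁻¹ ∈ Vm) (m : ℕ) : ∀ x ∈ Vm, a ^ m * x * (a ^ m)⁻¹ ∈ Vm := by
  induction m with
  | zero => intro x hx; simpa using hx
  | succ m ih =>
    intro x hx
    have h1 := ham _ (ih x hx)
    have h2 : a * (a ^ m * x * (a ^ m)⁻¹) * a⁻¹ = a ^ (m + 1) * x * (a ^ (m + 1))⁻¹ := by
      rw [pow_succ']; group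
    rwa [h2] at h1

/-- The powers of `T_a` are the `T_{a^m}` for `V` tidy above. -/
theorem hecke_pow (π : G →* unitary (H →L[ℂ] H)) (V Vp Vm : Subgroup G) (a : G)
    (hp : Vp ≤ V) (hm : Vm ≤ V) (hV : ∀ x ∈ V, ∃ y ∈ Vp, ∃ z ∈ Vm, x = y * z)
    (hap : ∀ x ∈ Vp, a⁻¹ * x * a ∈ Vp) (ham : ∀ x ∈ Vm, a * x * a⁻¹ ∈ Vm) (m : ℕ) :
    hecke π V (a ^ (m + 1)) = (hecke π V a) ^ (m + 1) := by
  have hfac := (P_eq_of_factor π V Vp Vm hp hm hV).2
  induction m with
  | zero => simp
  | succ m ih =>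
    rw [pow_succ (hecke π V a), ← ih]
    unfold hecke
    have h1 : P π Vp * ((π a : H →L[ℂ] H) * P π V) = (π a : H →L[ℂ] H) * P π V := by
      apply proj_mul_of_range
      intro η x hx
      show (π x : H →L[ℂ] H) ((π a : H →L[ℂ] H) (P π V η)) = (π a : H →L[ℂ] H) (P π V η)
      rw [← proj_smul, show x * a = a * (a⁻¹ * x * a) by group, proj_smul]
      rw [proj_mem π V η _ (hp (hap x hx))]
    have h2 : P π Vm * ((π (a ^ (m + 1))⁻¹ : H →L[ℂ] H) * P π V) =
        (π (a ^ (m + 1))⁻¹ : H →L[ℂ] H) * P π V := by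
      apply proj_mul_of_range
      intro η x hx
      show (π x : H →L[ℂ] H) ((π (a ^ (m + 1))⁻¹ : H →L[ℂ] H) (P π V η)) =
        (π (a ^ (m + 1))⁻¹ : H →L[ℂ] H) (P π V η)
      rw [← proj_smul, show x * (a ^ (m + 1))⁻¹ =
        (a ^ (m + 1))⁻¹ * (a ^ (m + 1) * x * (a ^ (m + 1))⁻¹) by group, proj_smul]
      rw [proj_mem π V η _ (hm (proj_conj_pow_mem ham (m + 1) x hx))]
    have h3 : P π V * (π (a ^ (m + 1)) : H →L[ℂ] H) * P π Vm =
        P π V * (π (a ^ (m + 1)) : H →L[ℂ] H) := by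
      have h4 := congrArg star h2
      rw [star_mul, star_mul, proj_star, proj_star, proj_star_pi, inv_inv] at h4
      exact h4
    calc P π V * (π (a ^ (m + 1 + 1)) : H →L[ℂ] H) * P π V
        = (P π V * (π (a ^ (m + 1)) : H →L[ℂ] H)) * ((π a : H →L[ℂ] H) * P π V) := by
          rw [pow_succ a (m + 1), map_mul]
          simp only [mul_assoc, Submonoid.coe_mul]
      _ = (P π V * (π (a ^ (m + 1)) : H →L[ℂ] H) * P π Vm) *
            (P π Vp * ((π a : H →L[ℂ] H) * P π V)) := by rw [h1, h3]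
      _ = P π V * (π (a ^ (m + 1)) : H →L[ℂ] H) * (P π Vm * P π Vp) *
            ((π a : H →L[ℂ] H) * P π V) := by simp only [mul_assoc]
      _ = P π V * (π (a ^ (m + 1)) : H →L[ℂ] H) * (P π V * P π V) *
            ((π a : H →L[ℂ] H) * P π V) := by rw [← hfac, proj_idem]
      _ = _ := by simp only [mul_assoc]

/-! ### averages -/

/-- averaging over a finite index subgroup -/
theorem proj_average (π : G →* unitary (H →L[ℂ] H)) (V V' : Subgroup G)
    (hfin : V'.relIndex V ≠ 0) (A : H →L[ℂ] H) (hA : ∀ x ∈ V', (π x : H →L[ℂ] H) * A = A) :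
    P π V * A ∈ Submodule.span ℂ ((fun v : G => (π v : H →L[ℂ] H) * A) '' (V : Set G)) := by
  classical
  have hfi : (V'.subgroupOf V).FiniteIndex := ⟨hfin⟩
  let _ : Fintype (V ⧸ V'.subgroupOf V) := Fintype.ofFinite _
  set f : V ⧸ V'.subgroupOf V → (H →L[ℂ] H) := fun q => (π (q.out : V) : H →L[ℂ] H) * A with hf
  have hfmk : ∀ v : V, f (QuotientGroup.mk v) = (π (v : G) : H →L[ℂ] H) * A := by
    intro v
    have h1 : ((QuotientGroup.mk v : V ⧸ V'.subgroupOf V).out)⁻¹ * v ∈ V'.subgroupOf V := by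
      rw [← QuotientGroup.eq, QuotientGroup.out_eq']
    rw [Subgroup.mem_subgroupOf] at h1
    have h2 := hA _ h1
    show (π (((QuotientGroup.mk v : V ⧸ V'.subgroupOf V).out : V) : G) : H →L[ℂ] H) * A = _
    conv_lhs => rw [← h2]
    rw [← mul_assoc]
    congr 1
    have h3 : (v : G) = (((QuotientGroup.mk v : V ⧸ V'.subgroupOf V).out : V) : G) *
        ((((QuotientGroup.mk v : V ⧸ V'.subgroupOf V).out)⁻¹ * v : V) : G) := by
      push_cast
      group
    conv_rhs => rw [h3, map_mul]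
    rfl
  have hB : ∀ v ∈ V, (π v : H →L[ℂ] H) * ∑ q, f q = ∑ q, f q := by
    intro v hv
    rw [Finset.mul_sum, ← Equiv.sum_comp (MulAction.toPerm (⟨v, hv⟩ : V)) f]
    apply Finset.sum_congr rfl
    intro q _
    have h4 : (MulAction.toPerm (⟨v, hv⟩ : V)) q =
        (QuotientGroup.mk ((⟨v, hv⟩ : V) * q.out) : V ⧸ V'.subgroupOf V) := by
      conv_lhs => rw [← QuotientGroup.out_eq' q]
      rfl
    rw [h4, hfmk, hf]
    simp only
    rw [← mul_assoc]
    congr 1
    show (π v : H →L[ℂ] H) * (π ((q.out : V) : G) : H →L[ℂ] H) =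
      (π (((⟨v, hv⟩ : V) * q.out : V) : G) : H →L[ℂ] H)
    rw [Subgroup.coe_mul, map_mul]
    rfl
  have h5 : P π V * ∑ q, f q = ∑ q, f q := by
    apply proj_mul_of_range
    intro η x hx
    exact congrArg (fun T : H →L[ℂ] H => T η) (hB x hx)
  have h6 : P π V * ∑ q, f q = (Fintype.card (V ⧸ V'.subgroupOf V) : ℂ) • (P π V * A) := by
    rw [Finset.mul_sum]
    have h7 : ∀ q, P π V * f q = P π V * A := by
      intro q
      rw [hf]
      simp only
      rw [← mul_assoc, proj_P_mul_pi π (q.out : V).2]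
    rw [Finset.sum_congr rfl (fun q _ => h7 q), Finset.sum_const, Finset.card_univ,
      ← Nat.cast_smul_eq_nsmul ℂ]
  have hn : (Fintype.card (V ⧸ V'.subgroupOf V) : ℂ) ≠ 0 := by
    have : 0 < Fintype.card (V ⧸ V'.subgroupOf V) := Fintype.card_pos
    exact_mod_cast this.ne'
  have h8 : P π V * A = (Fintype.card (V ⧸ V'.subgroupOf V) : ℂ)⁻¹ • ∑ q, f q := by
    rw [← h5, h6, smul_smul, inv_mul_cancel₀ hn, one_smul]
  rw [h8]
  apply Submodule.smul_mem
  apply Submodule.sum_mem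
  intro q _
  apply Submodule.subset_span
  exact ⟨(q.out : V), (q.out : V).2, rfl⟩

/-- `T_g T_h` is an average of `T_{g v h}`. -/
theorem hecke_mul_mem (π : G →* unitary (H →L[ℂ] H)) (V : Subgroup G)
    (g h : G) (hfin : (V ⊓ V.map (MulAut.conj h).toMonoidHom).relIndex V ≠ 0) :
    hecke π V g * hecke π V h ∈
      Submodule.span ℂ ((fun v : G => hecke π V (g * v * h)) '' (V : Set G)) := by
  have h1 := proj_average π V (V ⊓ V.map (MulAut.conj h).toMonoidHom) hfin
    ((π h : H →L[ℂ] H) * P π V) (by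
      rintro x ⟨-, y, hy, rfl⟩
      ext η
      show (π _ : H →L[ℂ] H) ((π h : H →L[ℂ] H) (P π V η)) = (π h : H →L[ℂ] H) (P π V η)
      rw [← proj_smul]
      have e : ((MulAut.conj h).toMonoidHom y) * h = h * y := by
        simp [MulAut.conj_apply]
      rw [e, proj_smul, proj_mem π V η y hy])
  have h2 := Submodule.mem_map_of_mem (f := LinearMap.mulLeft ℂ (P π V * (π g : H →L[ℂ] H))) h1
  rw [Submodule.map_span] at h2
  have h3 : hecke π V g * hecke π V h =
      LinearMap.mulLeft ℂ (P π V * (π g : H →L[ℂ] H)) (P π V * ((π h : H →L[ℂ] H) * P π V)) := by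
    rw [LinearMap.mulLeft_apply]
    unfold hecke
    calc P π V * (π g : H →L[ℂ] H) * P π V * (P π V * (π h : H →L[ℂ] H) * P π V)
        = P π V * (π g : H →L[ℂ] H) * (P π V * P π V) * ((π h : H →L[ℂ] H) * P π V) := by
          simp only [mul_assoc]
      _ = _ := by rw [proj_idem]; simp only [mul_assoc]
  rw [h3]
  refine Submodule.span_mono ?_ h2
  rintro _ ⟨_, ⟨v, hv, rfl⟩, rfl⟩
  refine ⟨v, hv, ?_⟩
  simp only [LinearMap.mulLeft_apply]
  unfold hecke
  rw [map_mul, map_mul]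
  simp only [Submonoid.coe_mul, mul_assoc]

/-- For `V ≤ W` of finite index, `P_W` is a linear combination of the `T_w`, `w ∈ W`. -/
theorem P_mem_span_hecke (π : G →* unitary (H →L[ℂ] H)) (V W : Subgroup G) (hVW : V ≤ W)
    (hfin : V.relIndex W ≠ 0) :
    P π W ∈ Submodule.span ℂ ((fun w : G => hecke π V w) '' (W : Set G)) := by
  have h1 := proj_average π W V hfin (P π V) (fun x hx => proj_pi_mul_P π hx)
  have h2 := Submodule.mem_map_of_mem (f := LinearMap.mulLeft ℂ (P π V)) h1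
  rw [Submodule.map_span] at h2
  have h3 : P π W = LinearMap.mulLeft ℂ (P π V) (P π W * P π V) := by
    rw [LinearMap.mulLeft_apply, proj_P_mul_P_of_le' π hVW, proj_P_mul_P_of_le π hVW]
  rw [h3]
  refine Submodule.span_mono ?_ h2
  rintro _ ⟨_, ⟨v, hv, rfl⟩, rfl⟩
  refine ⟨v, hv, ?_⟩
  simp only [LinearMap.mulLeft_apply]
  unfold hecke
  simp only [mul_assoc]

end Pool.MP_b4ba8e
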