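import Pool.Agent.Lib.MP_b4ba8e_al.Growth
import Pool.Agent.Lib.MP_b4ba8e_al.Proj

/-!
# MP_b4ba8e_al : the corner argument. (Module ADM, part 2.)
-/

set_option autoImplicit false
set_option linter.unusedSectionVars false

namespace Pool.MP_b4ba8e

variable {G : Type*} [Group G]
variable {H : Type*} [NormedAddCommGroup H] [InnerProductSpace ℂ H] [CompleteSpace H]

theorem pow_le_map {X : Type*} [NormedAddCommGroup X] [InnerProductSpace ℂ X]
    (F : ℕ → Submodule ℂ (H →L[ℂ] H)) (ρ : (H →L[ℂ] H) →ₗ[ℂ] (X →L[ℂ] X)) (E : H →L[ℂ] H)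
    (hE0 : E ∈ F 0) (hE : ρ E = 1) (hmul : ∀ n, F n * F 1 ≤ F (n + 1))
    (hρ : ∀ t, ∀ s ∈ F 1, ρ t * ρ s = ρ (t * s)) (n : ℕ) :
    ((F 1).map ρ) ^ n ≤ (F n).map ρ := by
  induction n with
  | zero =>
    rw [Submodule.pow_zero, Submodule.one_le]
    exact ⟨E, hE0, hE⟩
  | succ n ih =>
    rw [Submodule.pow_succ, Submodule.mul_le]
    intro a ha b hb
    obtain ⟨t, ht, rfl⟩ := ih ha
    obtain ⟨s, hs, rfl⟩ := hb
    exact ⟨t * s, hmul n (Submodule.mul_mem_mul ht hs), (hρ t s hs).symm⟩

section Res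

variable (U : Submodule ℂ H) [CompleteSpace U]

/-- compression to a closed subspace -/
noncomputable def res : (H →L[ℂ] H) →ₗ[ℂ] (U →L[ℂ] U) where
  toFun t := (U.orthogonalProjectionOnto).comp (t.comp U.subtypeL)
  map_add' := by
    intro a b
    ext x
    simp
  map_smul' := by
    intro c a
    ext x
    simp

theorem res_apply (t : H →L[ℂ] H) (x : U) : res U t x = U.orthogonalProjectionOnto (t x) := rfl

theorem res_coe_of_inv {t : H →L[ℂ] H} (ht : ∀ x ∈ U, t x ∈ U) (x : U) :
    ((res U t x : U) : H) = t x := by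
  rw [res_apply]
  have h1 : U.orthogonalProjectionOnto (t x) = ⟨t x, ht x x.2⟩ :=
    Submodule.orthogonalProjectionOnto_mem_subspace_eq_self (⟨t x, ht x x.2⟩ : U)
  rw [h1]

theorem star_res (t : H →L[ℂ] H) : star (res U t) = res U (star t) := by
  show star ((U.orthogonalProjectionOnto).comp (t.comp U.subtypeL)) = _
  rw [ContinuousLinearMap.star_eq_adjoint, ContinuousLinearMap.adjoint_comp,
    ContinuousLinearMap.adjoint_comp, Submodule.adjoint_subtypeL,
    Submodule.adjoint_orthogonalProjectionOnto, ← ContinuousLinearMap.star_eq_adjoint]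
  rfl

theorem res_mul_of_inv {t s : H →L[ℂ] H} (hs : ∀ x ∈ U, s x ∈ U) :
    res U t * res U s = res U (t * s) := by
  ext x
  show ((res U t (res U s x) : U) : H) = ((res U (t * s) x : U) : H)
  rw [res_apply, res_apply U (t * s), res_coe_of_inv U hs]
  rfl

end Res

theorem corner_finite (π : G →* unitary (H →L[ℂ] H)) (W : Subgroup G)
    (hirr : ∀ Y : Submodule ℂ H, IsClosed (Y : Set H) →
      (∀ g : G, ∀ v ∈ Y, (π g : H →L[ℂ] H) v ∈ Y) → Y = ⊥ ∨ Y = ⊤)
    (F : ℕ → Submodule ℂ (H →L[ℂ] H)) (C : ℕ) (E : H →L[ℂ] H)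
    (hE0 : E ∈ F 0) (hmono : F 0 ≤ F 1) (hstar : ∀ s ∈ F 1, star s ∈ F 1)
    (hmul : ∀ n, F n * F 1 ≤ F (n + 1))
    (hdim : ∀ n, Module.Finite ℂ (F n) ∧ Module.finrank ℂ (F n) ≤ C * (n + 1))
    (hEl : ∀ s ∈ F 1, E * s = s) (hEW : E * P π W = P π W)
    (hPW : P π W ∈ F 1)
    (hPg : ∀ g, P π W * (π g : H →L[ℂ] H) * P π W ∈
      Algebra.adjoin ℂ (F 1 : Set (H →L[ℂ] H))) :
    FiniteDimensional ℂ (fixedVec π W) := by
  set R := Algebra.adjoin ℂ (F 1 : Set (H →L[ℂ] H)) with hR
  -- the space `closure (R H^W)`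
  set U₀ : Submodule ℂ H :=
    Submodule.span ℂ {z | ∃ r ∈ R, ∃ w ∈ fixedVec π W, z = r w} with hU₀
  obtain ⟨U, hU⟩ : ∃ U : Submodule ℂ H, U = U₀.topologicalClosure := ⟨_, rfl⟩
  have hUcl : IsClosed (U : Set H) := by rw [hU]; exact Submodule.isClosed_topologicalClosure _
  have : CompleteSpace U := hUcl.completeSpace_coe
  have hWU : fixedVec π W ≤ U := by
    intro w hw
    rw [hU]
    exact Submodule.le_topologicalClosure _ (Submodule.subset_span ⟨1, one_mem R, w, hw, rfl⟩)
  -- invariance of `U`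
  have hUinv : ∀ r ∈ R, ∀ x ∈ U, r x ∈ U := by
    intro r hr x hx
    rw [hU] at hx ⊢
    have h0 : U₀ ≤ U₀.comap (r : H →ₗ[ℂ] H) := by
      rw [hU₀, Submodule.span_le]
      rintro _ ⟨t, ht, w, hw, rfl⟩
      exact Submodule.subset_span ⟨r * t, mul_mem hr ht, w, hw, rfl⟩
    have hmap : Set.MapsTo r (U₀ : Set H) (U₀ : Set H) := fun z hz => h0 hz
    exact hmap.closure r.continuous hx
  have hFinv : ∀ s ∈ F 1, ∀ x ∈ U, s x ∈ U := fun s hs => hUinv s (Algebra.subset_adjoin hs)
  -- `E` is the identity on `U`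
  have hEidem : E * E = E := hEl E (hmono hE0)
  have hERE : ∀ r ∈ R, E * r * E = r * E := by
    intro r hr
    induction hr using Algebra.adjoin_induction with
    | mem x hx => rw [hEl x hx]
    | algebraMap c =>
      rw [Algebra.algebraMap_eq_smul_one, mul_smul_comm, smul_mul_assoc, smul_mul_assoc, mul_one,
        one_mul, hEidem]
    | add x y _ _ hx hy => rw [mul_add, add_mul, hx, hy, add_mul]
    | mul x y _ _ hx hy =>
      calc E * (x * y) * E = E * x * (y * E) := by simp only [mul_assoc]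
        _ = E * x * (E * y * E) := by rw [hy]
        _ = (E * x * E) * (y * E) := by simp only [mul_assoc]
        _ = (x * E) * (y * E) := by rw [hx]
        _ = x * (E * y * E) := by simp only [mul_assoc]
        _ = x * y * E := by rw [hy, mul_assoc]
  have hEw : ∀ w ∈ fixedVec π W, E w = w := by
    intro w hw
    have h1 := congrArg (fun T : H →L[ℂ] H => T w) hEW
    have h2 : E (P π W w) = P π W w := h1
    rwa [proj_of_mem hw] at h2
  have hEU : ∀ x ∈ U, E x = x := by
    have hcl : IsClosed {x : H | E x = x} := isClosed_eq E.continuous continuous_id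
    have h0 : (U₀ : Set H) ⊆ {x : H | E x = x} := by
      have : U₀ ≤ LinearMap.ker ((E - 1 : H →L[ℂ] H) : H →ₗ[ℂ] H) := by
        rw [hU₀, Submodule.span_le]
        rintro _ ⟨r, hr, w, hw, rfl⟩
        show (E - 1 : H →L[ℂ] H) (r w) = 0
        have h1 := congrArg (fun T : H →L[ℂ] H => T w) (hERE r hr)
        have h2 : E (r (E w)) = r (E w) := h1
        rw [hEw w hw] at h2
        show E (r w) - r w = 0
        rw [h2, sub_self]
      intro x hx
      have h3 : (E - 1 : H →L[ℂ] H) x = 0 := this hx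
      have h4 : E x - x = 0 := h3
      exact sub_eq_zero.mp h4
    intro x hx
    rw [hU] at hx
    exact closure_minimal h0 hcl hx
  -- the compressed space of operators
  set S : Submodule ℂ (U →L[ℂ] U) := (F 1).map (res U) with hS
  have hS1 : (1 : U →L[ℂ] U) ∈ S := by
    refine ⟨E, hmono hE0, ?_⟩
    ext x
    rw [res_coe_of_inv U (hFinv E (hmono hE0))]
    exact hEU x x.2
  have hSstar : ∀ s ∈ S, star s ∈ S := by
    rintro _ ⟨t, ht, rfl⟩
    exact ⟨star t, hstar t ht, (star_res U t).symm⟩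
  have hresE : res U E = 1 := by
    ext x
    rw [res_coe_of_inv U (hFinv E (hmono hE0))]
    exact hEU x x.2
  have hSpow : ∀ n, S ^ n ≤ (F n).map (res U) :=
    pow_le_map F (res U) E hE0 hresE hmul (fun t s hs => res_mul_of_inv U (hFinv s hs))
  have hSdim : ∀ n : ℕ, Module.Finite ℂ ↥(S ^ n) ∧ Module.finrank ℂ ↥(S ^ n) ≤ C * (n + 1) := by
    intro n
    obtain ⟨h1, h2⟩ := hdim n
    have h3 : Module.Finite ℂ ↥((F n).map (res U)) := inferInstance
    refine ⟨Submodule.finiteDimensional_of_le (hSpow n), ?_⟩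
    exact (Submodule.finrank_mono (hSpow n)).trans ((Submodule.finrank_map_le _ _).trans h2)
  have hSirr : ∀ Y : Submodule ℂ U, IsClosed (Y : Set U) → (∀ s ∈ S, ∀ y ∈ Y, s y ∈ Y) →
      Y = ⊥ ∨ Y = ⊤ := by
    intro Y hYcl hYinv
    -- invariance under `R`
    have hinvR : ∀ (Y' : Submodule ℂ U), (∀ s ∈ S, ∀ y ∈ Y', s y ∈ Y') → ∀ r ∈ R, ∀ y ∈ Y',
        ∃ z ∈ Y', (z : H) = r y := by
      intro Y' hY' r hr
      induction hr using Algebra.adjoin_induction with
      | mem s hs =>
        intro y hy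
        exact ⟨res U s y, hY' _ ⟨s, hs, rfl⟩ y hy, res_coe_of_inv U (hFinv s hs) y⟩
      | algebraMap c =>
        intro y hy
        refine ⟨c • y, Y'.smul_mem c hy, ?_⟩
        rw [Algebra.algebraMap_eq_smul_one]
        rfl
      | add a b _ _ ha hb =>
        intro y hy
        obtain ⟨z, hz, hz'⟩ := ha y hy
        obtain ⟨t, ht, ht'⟩ := hb y hy
        refine ⟨z + t, Y'.add_mem hz ht, ?_⟩
        rw [Submodule.coe_add, hz', ht']
        rfl
      | mul a b _ _ ha hb =>
        intro y hy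
        obtain ⟨t, ht, ht'⟩ := hb y hy
        obtain ⟨z, hz, hz'⟩ := ha t ht
        refine ⟨z, hz, ?_⟩
        rw [hz', ht']
        rfl
    -- if `H^W ⊆ Y'` with `Y'` closed invariant then `Y' = ⊤`
    have htop : ∀ (Y' : Submodule ℂ U), IsClosed (Y' : Set U) → (∀ s ∈ S, ∀ y ∈ Y', s y ∈ Y') →
        (∀ w : U, (w : H) ∈ fixedVec π W → w ∈ Y') → Y' = ⊤ := by
      intro Y' hcl hinv hw
      rw [eq_top_iff]
      rintro ⟨x, hx⟩ _
      have hYcl' : IsClosed ((Y'.map U.subtype : Submodule ℂ H) : Set H) := by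
        have : ((Y'.map U.subtype : Submodule ℂ H) : Set H) = (Subtype.val : U → H) '' (Y' : Set U) :=
          rfl
        rw [this]
        exact hUcl.isClosedEmbedding_subtypeVal.isClosedMap _ hcl
      have h0 : U₀ ≤ Y'.map U.subtype := by
        rw [hU₀, Submodule.span_le]
        rintro _ ⟨r, hr, w, hwm, rfl⟩
        obtain ⟨z, hz, hz'⟩ := hinvR Y' hinv r hr ⟨w, hWU hwm⟩ (hw ⟨w, hWU hwm⟩ hwm)
        exact ⟨z, hz, hz'⟩
      have h1 : U ≤ Y'.map U.subtype := by
        intro y hy
        rw [hU] at hy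
        exact closure_minimal (fun z hz => h0 hz) hYcl' hy
      obtain ⟨z, hz, hz'⟩ := h1 hx
      have : z = ⟨x, hx⟩ := Subtype.ext hz'
      rw [← this]
      exact hz
    -- `Z = Y ∩ H^W`
    set Z : Submodule ℂ H := (Y.map U.subtype) ⊓ fixedVec π W with hZ
    have hZcl : IsClosed (Z : Set H) := by
      have hYcl' : IsClosed ((Y.map U.subtype : Submodule ℂ H) : Set H) := by
        have : ((Y.map U.subtype : Submodule ℂ H) : Set H) = (Subtype.val : U → H) '' (Y : Set U) :=
          rfl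
        rw [this]
        exact hUcl.isClosedEmbedding_subtypeVal.isClosedMap _ hYcl
      exact hYcl'.inter (isClosed_fixedVec π W)
    set M₀ : Submodule ℂ H := Submodule.span ℂ {z | ∃ g : G, ∃ η ∈ Z, z = (π g : H →L[ℂ] H) η}
      with hM₀
    have hMinv : ∀ g : G, ∀ v ∈ M₀.topologicalClosure, (π g : H →L[ℂ] H) v ∈
        M₀.topologicalClosure := by
      intro g v hv
      have h0 : M₀ ≤ M₀.comap ((π g : H →L[ℂ] H) : H →ₗ[ℂ] H) := by
        rw [hM₀, Submodule.span_le]
        rintro _ ⟨k, η, hη, rfl⟩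
        refine Submodule.subset_span ⟨g * k, η, hη, ?_⟩
        exact (proj_smul π g k η).symm
      have hmap : Set.MapsTo (π g : H →L[ℂ] H) (M₀ : Set H) (M₀ : Set H) := fun z hz => h0 hz
      exact hmap.closure (π g : H →L[ℂ] H).continuous hv
    rcases hirr _ (Submodule.isClosed_topologicalClosure _) hMinv with hb | ht
    · -- `Z = 0`
      have hZ0 : ∀ η ∈ Z, η = 0 := by
        intro η hη
        have : η ∈ M₀.topologicalClosure :=
          Submodule.le_topologicalClosure _ (Submodule.subset_span ⟨1, η, hη, (proj_one π η).symm⟩)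
        rw [hb] at this
        simpa using this
      left
      have horthinv : ∀ s ∈ S, ∀ y ∈ Yᗮ, s y ∈ Yᗮ := by
        intro s hs y hy
        rw [Submodule.mem_orthogonal] at hy ⊢
        intro u hu
        have h1 := hYinv (star s) (hSstar s hs) u hu
        have h2 := hy _ h1
        rw [ContinuousLinearMap.star_eq_adjoint, ContinuousLinearMap.adjoint_inner_left] at h2
        exact h2
      have h1 := htop Yᗮ (Submodule.isClosed_orthogonal Y) horthinv ?_
      · have : CompleteSpace Y := hYcl.completeSpace_coe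
        rw [Submodule.orthogonal_eq_top_iff] at h1
        exact h1
      · intro w hw
        rw [Submodule.mem_orthogonal]
        intro y hy
        have h2 : (res U (P π W)) y ∈ Y := hYinv _ ⟨P π W, hPW, rfl⟩ y hy
        have h3 : ((res U (P π W) y : U) : H) = P π W y := res_coe_of_inv U (hFinv _ hPW) y
        have h4 : P π W (y : H) ∈ Z := ⟨⟨_, h2, h3⟩, proj_mem π W y⟩
        have h5 := hZ0 _ h4
        show inner ℂ (y : H) (w : H) = 0
        have h6 : (w : H) = P π W w := (proj_of_mem hw).symm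
        rw [h6]
        have h7 : inner ℂ (y : H) (P π W w) = inner ℂ (star (P π W) (y : H)) (w : H) := by
          rw [ContinuousLinearMap.star_eq_adjoint, ContinuousLinearMap.adjoint_inner_left]
        rw [h7, proj_star, h5, inner_zero_left]
    · right
      refine htop Y hYcl hYinv ?_
      intro w hw
      have hwM : (w : H) ∈ M₀.topologicalClosure := by rw [ht]; trivial
      have hmap : Set.MapsTo (P π W) (M₀ : Set H) (Z : Set H) := by
        have : M₀ ≤ Z.comap (P π W : H →ₗ[ℂ] H) := by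
          rw [hM₀, Submodule.span_le]
          rintro _ ⟨g, η, hη, rfl⟩
          obtain ⟨⟨y, hy, hy'⟩, hηW⟩ := hη
          show P π W ((π g : H →L[ℂ] H) η) ∈ Z
          refine ⟨?_, proj_mem π W _⟩
          obtain ⟨z, hz, hz'⟩ := hinvR Y hYinv _ (hPg g) y hy
          refine ⟨z, hz, ?_⟩
          show (z : H) = _
          rw [hz']
          show P π W ((π g : H →L[ℂ] H) (P π W (y : H))) = _
          have h8 : (y : H) = η := hy'
          rw [h8, proj_of_mem hηW]
        exact fun z hz => this hz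
      have h1 := hmap.closure (P π W).continuous hwM
      rw [hZcl.closure_eq, proj_of_mem hw] at h1
      obtain ⟨⟨y, hy, hy'⟩, _⟩ := h1
      have : y = w := Subtype.ext hy'
      rw [← this]
      exact hy
  have hfinU : FiniteDimensional ℂ U :=
    finiteDimensional_of_linear_growth S hS1 hSstar C hSdim hSirr
  exact Submodule.finiteDimensional_of_le hWU

end Pool.MP_b4ba8e
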