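import Mathlib

/-!
# MP_b4ba8e_al (Nebbia's CCR conjecture) : common definitions

Everything here is generic: a group `G`, a unitary representation `π : G →* unitary (H →L[ℂ] H)`.
-/

set_option autoImplicit false

namespace Pool.MP_b4ba8e

variable {G : Type*} [Group G]
variable {H : Type*} [NormedAddCommGroup H] [InnerProductSpace ℂ H] [CompleteSpace H]

/-- Vectors fixed by all elements of the subgroup `X`. -/
def fixedVec (π : G →* unitary (H →L[ℂ] H)) (X : Subgroup G) : Submodule ℂ H where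
  carrier := {η | ∀ x ∈ X, (π x : H →L[ℂ] H) η = η}
  add_mem' := by
    intro a b ha hb x hx
    rw [map_add, ha x hx, hb x hx]
  zero_mem' := by
    intro x _
    exact map_zero _
  smul_mem' := by
    intro c a ha x hx
    rw [map_smul, ha x hx]

theorem mem_fixedVec {π : G →* unitary (H →L[ℂ] H)} {X : Subgroup G} {η : H} :
    η ∈ fixedVec π X ↔ ∀ x ∈ X, (π x : H →L[ℂ] H) η = η := Iff.rfl

theorem isClosed_fixedVec (π : G →* unitary (H →L[ℂ] H)) (X : Subgroup G) :
    IsClosed (fixedVec π X : Set H) := by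
  have : (fixedVec π X : Set H) = ⋂ x ∈ X, {η : H | (π x : H →L[ℂ] H) η = η} := by
    ext η
    simp [mem_fixedVec]
  rw [this]
  refine isClosed_biInter fun x _ => ?_
  exact isClosed_eq (π x : H →L[ℂ] H).continuous continuous_id

instance (π : G →* unitary (H →L[ℂ] H)) (X : Subgroup G) :
    CompleteSpace (fixedVec π X) :=
  (isClosed_fixedVec π X).completeSpace_coe

/-- `P π X` is the orthogonal projection onto the `X`-fixed vectors. -/
noncomputable def P (π : G →* unitary (H →L[ℂ] H)) (X : Subgroup G) : H →L[ℂ] H :=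
  (fixedVec π X).starProjection

/-- Hecke operator `T_g = P_X π(g) P_X`. -/
noncomputable def hecke (π : G →* unitary (H →L[ℂ] H)) (X : Subgroup G) (g : G) : H →L[ℂ] H :=
  P π X * (π g : H →L[ℂ] H) * P π X

/-- `∩_{i ≤ k ≤ j} a^k U a^{-k}` with `i = -p`, `j = q` finite or infinite:
`conjInter U a s = ∩_{k ∈ s} a^k U a^{-k}`. -/
def conjInter (U : Subgroup G) (a : G) (s : Set ℤ) : Subgroup G :=
  ⨅ k ∈ s, U.map (MulAut.conj (a ^ k)).toMonoidHom

theorem mem_conjInter {U : Subgroup G} {a : G} {s : Set ℤ} {x : G} :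
    x ∈ conjInter U a s ↔ ∀ k ∈ s, a ^ (-k) * x * a ^ k ∈ U := by
  simp only [conjInter, Subgroup.mem_iInf, Subgroup.mem_map, MulEquiv.coe_toMonoidHom,
    MulAut.conj_apply]
  constructor
  · intro h k hk
    obtain ⟨y, hy, rfl⟩ := h k hk
    simpa [mul_assoc, zpow_neg] using hy
  · intro h k hk
    refine ⟨_, h k hk, ?_⟩
    simp [mul_assoc, zpow_neg]

/-- The combinatorial input from the tree: a Cartan decomposition `G = ∪_m K a^m K` with a length
function `L` such that `L (k₁ a^m k₂) = m`. -/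
structure Cartan (K : Subgroup G) (a : G) (L : G → ℕ) : Prop where
  mul_le : ∀ g h, L (g * h) ≤ L g + L h
  inv : ∀ g, L g⁻¹ = L g
  zero_of_mem : ∀ k ∈ K, L k = 0
  le_one : L a ≤ 1
  decomp : ∀ g, ∃ k₁ ∈ K, ∃ k₂ ∈ K, g = k₁ * a ^ (L g) * k₂

/-- A bi-infinite non-backtracking walk (in a tree: a geodesic line, see `IsLine.dist`). -/
def IsLine {V : Type*} (T : SimpleGraph V) (l : ℤ → V) : Prop :=
  (∀ i, T.Adj (l i) (l (i + 1))) ∧ ∀ i, l (i + 2) ≠ l i

end Pool.MP_b4ba8e
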