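import Mathlib
import Pool.Agent.Lib.MP_b4ba8e_al.Defs
import Pool.Agent.Lib.MP_b4ba8e_al.Proj
import Pool.Agent.Lib.MP_b4ba8e_al.FinOf

/-!
# MP_b4ba8e_al : Module FIN, compactness of `π(f)`
-/

set_option autoImplicit false
open MeasureTheory Topology

namespace Pool.MP_b4ba8e

theorem compact_of_admissible
    {G : Type} [Group G] [TopologicalSpace G] [IsTopologicalGroup G] [MeasurableSpace G]
    [BorelSpace G] [SecondCountableTopology G] [T2Space G]
    (K : Subgroup G) (hKo : IsOpen (K : Set G)) (hKc : IsCompact (K : Set G))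
    (μ : Measure G) [μ.IsHaarMeasure]
    {H : Type} [NormedAddCommGroup H] [InnerProductSpace ℂ H] [CompleteSpace H]
    (π : G →* unitary (H →L[ℂ] H))
    (hcont : ∀ v : H, Continuous (fun g : G => (π g : H →L[ℂ] H) v))
    (hadm : ∀ U : Set G, U ∈ nhds (1 : G) → ∃ W : Subgroup G, (W : Set G) ⊆ U ∧
      FiniteDimensional ℂ (fixedVec π W))
    (f : G → ℂ) (hf : Integrable f μ) :
      ∃ A : H →L[ℂ] H, IsCompactOperator A ∧
        ∀ x y : H, inner ℂ x (A y) = ∫ g, f g * inner ℂ x ((π g : H →L[ℂ] H) y) ∂μ :=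
  compact_of_admissible_of P_mem_closure_convexHull K hKo hKc μ π hcont hadm f hf

end Pool.MP_b4ba8e
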