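import Pool.Agent.Lib.MP_b4ba8e_al.Defs

/-!
# MP_b4ba8e_al : module PID

Pure algebra about non-unital domains over `ℂ` (given as subspaces closed under multiplication).
-/

set_option autoImplicit false

namespace Pool.MP_b4ba8e

open Polynomial

theorem mul_aeval_mem {R : Type*} [Ring R] [Algebra ℂ R] (D : Submodule ℂ R)
    (hmul : ∀ x ∈ D, ∀ y ∈ D, x * y ∈ D) {u : R} (hu : u ∈ D) {d : R} (hd : d ∈ D)
    (p : ℂ[X]) : d * aeval u p ∈ D := by
  have hpow : ∀ n : ℕ, d * u ^ n ∈ D := by
    intro n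
    induction n with
    | zero => simpa using hd
    | succ n ih =>
      rw [pow_succ, ← mul_assoc]
      exact hmul _ ih _ hu
  induction p using Polynomial.induction_on' with
  | add p q hp hq =>
    rw [map_add, mul_add]
    exact D.add_mem hp hq
  | monomial n c =>
    rw [aeval_monomial, Algebra.algebraMap_eq_smul_one, smul_mul_assoc, one_mul, mul_smul_comm]
    exact D.smul_mem _ (hpow n)

/-- A non-zero algebraic element `u` of a (non-unital) domain satisfies `u² = λ u`. -/
theorem sq_eq_smul_of_algebraic {R : Type*} [Ring R] [Algebra ℂ R] (D : Submodule ℂ R)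
    (hmul : ∀ x ∈ D, ∀ y ∈ D, x * y ∈ D)
    (hdom : ∀ x ∈ D, ∀ y ∈ D, x * y = 0 → x = 0 ∨ y = 0)
    (u : R) (hu : u ∈ D) (hu0 : u ≠ 0) :
    ∀ (n : ℕ) (p : ℂ[X]), p.natDegree = n → p ≠ 0 → u * aeval u p = 0 →
      ∃ c : ℂ, u * u = c • u := by
  intro n
  induction n using Nat.strong_induction_on with
  | _ n ih =>
    intro p hn hp0 hp
    by_cases hdeg : p.natDegree = 0
    · exfalso
      obtain ⟨c, hc⟩ : ∃ c, p = C c := ⟨p.coeff 0, eq_C_of_natDegree_eq_zero hdeg⟩
      have hc0 : c ≠ 0 := by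
        rintro rfl
        apply hp0
        rw [hc, C_0]
      rw [hc, aeval_C, Algebra.algebraMap_eq_smul_one, mul_smul_comm, mul_one] at hp
      exact hu0 ((smul_eq_zero.1 hp).resolve_left hc0)
    · have hdeg' : p.degree ≠ 0 := by
        intro h
        apply hdeg
        exact natDegree_eq_of_degree_eq_some h
      obtain ⟨c, hc⟩ := IsAlgClosed.exists_root p hdeg'
      obtain ⟨q, hq⟩ := dvd_iff_isRoot.2 hc
      have hq0 : q ≠ 0 := by
        rintro rfl
        apply hp0
        rw [hq, mul_zero]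
      have hqd : q.natDegree < n := by
        rw [← hn, hq, natDegree_mul (X_sub_C_ne_zero c) hq0, natDegree_X_sub_C]
        omega
      have h1 : (u * aeval u (X - C c)) * (u * aeval u q) = 0 := by
        have h2 : (u * aeval u (X - C c)) * (u * aeval u q) = aeval u (X * (X - C c) * (X * q)) := by
          simp only [map_mul, aeval_X]
        have h3 : (X * (X - C c) * (X * q) : ℂ[X]) = X * (X * p) := by
          rw [hq]; ring
        rw [h2, h3, map_mul, map_mul, aeval_X, hp, mul_zero]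
      rcases hdom _ (mul_aeval_mem D hmul hu hu _) _ (mul_aeval_mem D hmul hu hu _) h1 with h | h
      · refine ⟨c, ?_⟩
        rw [map_sub, aeval_X, aeval_C, mul_sub, Algebra.algebraMap_eq_smul_one, mul_smul_comm,
          mul_one, sub_eq_zero] at h
        exact h
      · exact ih _ hqd q rfl hq0 h

/-- A non-unital domain all of whose elements are algebraic is `0` or `ℂ e`. -/
theorem domain_algebraic {R : Type*} [Ring R] [Algebra ℂ R] (D : Submodule ℂ R)
    (hmul : ∀ x ∈ D, ∀ y ∈ D, x * y ∈ D)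
    (hdom : ∀ x ∈ D, ∀ y ∈ D, x * y = 0 → x = 0 ∨ y = 0)
    (halg : ∀ u ∈ D, ∃ p : ℂ[X], p ≠ 0 ∧ aeval u p = 0) (f : R) (hf : f ∈ D) (hf0 : f ≠ 0) :
    ∀ d ∈ D, ∃ c : ℂ, d = c • f := by
  have hsq : ∀ u ∈ D, u ≠ 0 → ∃ c : ℂ, c ≠ 0 ∧ u * u = c • u := by
    intro u hu hu0
    obtain ⟨p, hp0, hp⟩ := halg u hu
    obtain ⟨c, hc⟩ := sq_eq_smul_of_algebraic D hmul hdom u hu hu0 _ p rfl hp0
      (by rw [hp, mul_zero])
    refine ⟨c, ?_, hc⟩
    rintro rfl
    rw [zero_smul] at hc
    rcases hdom u hu u hu hc with h | h <;> exact hu0 h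
  obtain ⟨c, hc0, hc⟩ := hsq f hf hf0
  intro d hd
  by_cases hd0 : d = 0
  · exact ⟨0, by rw [hd0, zero_smul]⟩
  obtain ⟨μ, hμ0, hμ⟩ := hsq d hd hd0
  -- `f d = c d`
  have h1 : f * d = c • d := by
    have h2 : f * (f * d - c • d) = 0 := by
      rw [mul_sub, ← mul_assoc, hc, mul_smul_comm, smul_mul_assoc, sub_self]
    rcases hdom f hf _ (D.sub_mem (hmul _ hf _ hd) (D.smul_mem _ hd)) h2 with h | h
    · exact (hf0 h).elim
    · exact sub_eq_zero.1 h
  have h1' : d * f = c • d := by
    have h2 : (d * f - c • d) * f = 0 := by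
      rw [sub_mul, mul_assoc, hc, mul_smul_comm, smul_mul_assoc, sub_self]
    rcases hdom _ (D.sub_mem (hmul _ hd _ hf) (D.smul_mem _ hd)) f hf h2 with h | h
    · exact sub_eq_zero.1 h
    · exact (hf0 h).elim
  -- `d (c d - μ f) = 0`
  have h3 : d * (c • d - μ • f) = 0 := by
    rw [mul_sub, mul_smul_comm, mul_smul_comm, hμ, h1', smul_smul, smul_smul, mul_comm, sub_self]
  rcases hdom d hd _ (D.sub_mem (D.smul_mem _ hd) (D.smul_mem _ hf)) h3 with h | h
  · exact (hd0 h).elim
  · refine ⟨c⁻¹ * μ, ?_⟩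
    have h4 := sub_eq_zero.1 h
    rw [← smul_smul, ← h4, smul_smul, inv_mul_cancel₀ hc0, one_smul]

/-- `D` : a domain (non-unital), `u ∈ D` transcendental, such that any family of `N` elements of
`D` is right-dependent over `ℂ[u]`. Then a uniform identity `∑_k u^k d b_k(u) = 0` (all `d ∈ D`)
holds with `b_s ≠ 0`. (Cayley-Hamilton.) -/
theorem exists_identity {R : Type*} [Ring R] [Algebra ℂ R] (D : Submodule ℂ R)
    (hmul : ∀ x ∈ D, ∀ y ∈ D, x * y ∈ D)
    (hdom : ∀ x ∈ D, ∀ y ∈ D, x * y = 0 → x = 0 ∨ y = 0)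
    (u : R) (hu : u ∈ D) (htr : ∀ p : ℂ[X], aeval u p = 0 → p = 0)
    (N : ℕ) (hdep : ∀ g : Fin N → R, (∀ i, g i ∈ D) →
      ∃ p : Fin N → ℂ[X], (∃ i, p i ≠ 0) ∧ ∑ i, g i * aeval u (p i) = 0) :
    ∃ (s : ℕ) (b : Fin (s + 1) → ℂ[X]), b (Fin.last s) ≠ 0 ∧
      ∀ d ∈ D, ∑ k : Fin (s + 1), u ^ (k : ℕ) * d * aeval u (b k) = 0 := by
  classical
  -- torsion-freeness
  have htf : ∀ z ∈ D, ∀ p : ℂ[X], p ≠ 0 → z * aeval u p = 0 → z = 0 := by
    intro z hz p hp h
    have h1 : z * (u * aeval u p) = 0 := by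
      have : u * aeval u p = aeval u p * u := by
        have h2 : aeval u (X * p) = aeval u (p * X) := by rw [mul_comm]
        simpa only [map_mul, aeval_X] using h2
      rw [this, ← mul_assoc, h, zero_mul]
    rcases hdom z hz _ (mul_aeval_mem D hmul hu hu p) h1 with h2 | h2
    · exact h2
    · exfalso
      have h3 : aeval u (X * p) = 0 := by rw [map_mul, aeval_X, h2]
      have h4 := htr _ h3
      rcases mul_eq_zero.1 h4 with h5 | h5
      · exact X_ne_zero h5
      · exact hp h5
  -- a maximal independent family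
  let Indep : ℕ → Prop := fun s => ∃ g : Fin s → R, (∀ i, g i ∈ D) ∧
    ∀ p : Fin s → ℂ[X], ∑ i, g i * aeval u (p i) = 0 → ∀ i, p i = 0
  have hN : ∃ n, ¬ Indep n := by
    refine ⟨N, ?_⟩
    rintro ⟨g, hg, hgi⟩
    obtain ⟨p, ⟨i, hi⟩, hp⟩ := hdep g hg
    exact hi (hgi p hp i)
  obtain ⟨s, ⟨g, hgD, hgi⟩, hs⟩ : ∃ s, Indep s ∧ ¬ Indep (s + 1) := by
    have h0 : Indep 0 := ⟨fun i => i.elim0, fun i => i.elim0, fun _ _ i => i.elim0⟩
    have h1 : Nat.find hN ≠ 0 := by
      intro h
      have := Nat.find_spec hN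
      rw [h] at this
      exact this h0
    obtain ⟨s, hs⟩ := Nat.exists_eq_succ_of_ne_zero h1
    refine ⟨s, ?_, ?_⟩
    · have := Nat.find_min hN (m := s) (by omega)
      exact not_not.1 this
    · have := Nat.find_spec hN
      rw [hs] at this
      exact this
  have hmax : ∀ d ∈ D, ∃ (p : ℂ[X]) (m : Fin s → ℂ[X]), p ≠ 0 ∧
      d * aeval u p = ∑ j, g j * aeval u (m j) := by
    intro d hd
    have h1 : ∃ p : Fin (s + 1) → ℂ[X],
        (∑ i, (Fin.cons d g : Fin (s + 1) → R) i * aeval u (p i) = 0) ∧ ∃ i, p i ≠ 0 := by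
      by_contra hcon
      push Not at hcon
      apply hs
      refine ⟨Fin.cons d g, ?_, fun p hp => hcon p hp⟩
      intro i
      refine Fin.cases ?_ ?_ i
      · exact hd
      · intro j
        exact hgD j
    obtain ⟨p, hp, i, hi⟩ := h1
    rw [Fin.sum_univ_succ] at hp
    simp only [Fin.cons_zero, Fin.cons_succ] at hp
    refine ⟨p 0, fun j => -p j.succ, ?_, ?_⟩
    · intro h0
      rw [h0, map_zero, mul_zero, zero_add] at hp
      have := hgi _ hp
      apply hi
      revert i
      intro i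
      refine Fin.cases ?_ ?_ i
      · intro _; exact h0
      · intro j _; exact this j
    · simp only [map_neg, mul_neg, Finset.sum_neg_distrib]
      exact eq_neg_of_add_eq_zero_left hp
  -- left multiplication by `u`
  choose P m hP hPm using fun i => hmax (u * g i) (hmul _ hu _ (hgD i))
  let p : ℂ[X] := ∏ i, P i
  have hp0 : p ≠ 0 := Finset.prod_ne_zero_iff.2 fun i _ => hP i
  let M : Matrix (Fin s) (Fin s) ℂ[X] := fun j i => m i j * ∏ k ∈ Finset.univ.erase i, P k
  have hM : ∀ i, u * g i * aeval u p = ∑ j, g j * aeval u (M j i) := by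
    intro i
    have h1 : p = P i * ∏ k ∈ Finset.univ.erase i, P k :=
      (Finset.mul_prod_erase _ _ (Finset.mem_univ i)).symm
    rw [h1, map_mul, ← mul_assoc, hPm, Finset.sum_mul]
    refine Finset.sum_congr rfl fun j _ => ?_
    show _ = g j * aeval u (m i j * ∏ k ∈ Finset.univ.erase i, P k)
    rw [map_mul, mul_assoc]
  have hcomm : ∀ q : ℂ[X], u * aeval u q = aeval u q * u := by
    intro q
    have h2 : aeval u (X * q) = aeval u (q * X) := by rw [mul_comm]
    simpa only [map_mul, aeval_X] using h2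
  have hpow : ∀ k : ℕ, ∀ i, u ^ k * g i * aeval u (p ^ k) = ∑ j, g j * aeval u ((M ^ k) j i) := by
    intro k
    induction k with
    | zero =>
      intro i
      simp only [pow_zero, map_one, one_mul, mul_one]
      rw [Finset.sum_eq_single i]
      · simp
      · intro j _ hj
        rw [Matrix.one_apply_ne hj, map_zero, mul_zero]
      · intro h
        exact (h (Finset.mem_univ i)).elim
    | succ k ih =>
      intro i
      have h1 : u ^ (k + 1) * g i * aeval u (p ^ (k + 1)) =
          u * (u ^ k * g i * aeval u (p ^ k)) * aeval u p := by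
        rw [pow_succ', pow_succ, map_mul]
        simp only [mul_assoc]
      rw [h1, ih, Finset.mul_sum, Finset.sum_mul]
      have h2 : ∀ j, u * (g j * aeval u ((M ^ k) j i)) * aeval u p =
          ∑ l, g l * aeval u (M l j * (M ^ k) j i) := by
        intro j
        have h3 : u * (g j * aeval u ((M ^ k) j i)) * aeval u p =
            (u * g j * aeval u p) * aeval u ((M ^ k) j i) := by
          have h4 : aeval u ((M ^ k) j i) * aeval u p = aeval u p * aeval u ((M ^ k) j i) := by
            rw [← map_mul, ← map_mul, mul_comm]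
          simp only [mul_assoc]
          rw [h4]
        rw [h3, hM, Finset.sum_mul]
        refine Finset.sum_congr rfl fun l _ => ?_
        rw [mul_assoc, ← map_mul]
      rw [Finset.sum_congr rfl fun j _ => h2 j, Finset.sum_comm]
      refine Finset.sum_congr rfl fun l _ => ?_
      rw [pow_succ', Matrix.mul_apply, map_sum, Finset.mul_sum]
  -- Cayley-Hamilton
  have hCH : ∀ j i, ∑ k : Fin (s + 1), M.charpoly.coeff k * (M ^ (k : ℕ)) j i = 0 := by
    intro j i
    have h1 := M.aeval_self_charpoly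
    rw [Polynomial.aeval_eq_sum_range, Matrix.charpoly_natDegree_eq_dim, Fintype.card_fin] at h1
    have h2 := congrFun (congrFun h1 j) i
    rw [Matrix.sum_apply] at h2
    rw [Fin.sum_univ_eq_sum_range (fun k => M.charpoly.coeff k * (M ^ k) j i)]
    simpa [Matrix.smul_apply, smul_eq_mul] using h2
  let b : Fin (s + 1) → ℂ[X] := fun k => p ^ (k : ℕ) * M.charpoly.coeff k
  have hb : ∀ i, ∑ k : Fin (s + 1), u ^ (k : ℕ) * g i * aeval u (b k) = 0 := by
    intro i
    have h1 : ∀ k : Fin (s + 1), u ^ (k : ℕ) * g i * aeval u (b k) =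
        ∑ j, g j * aeval u (M.charpoly.coeff k * (M ^ (k : ℕ)) j i) := by
      intro k
      show u ^ (k : ℕ) * g i * aeval u (p ^ (k : ℕ) * M.charpoly.coeff k) = _
      rw [map_mul, ← mul_assoc, hpow, Finset.sum_mul]
      refine Finset.sum_congr rfl fun j _ => ?_
      rw [mul_assoc, ← map_mul, mul_comm ((M ^ (k : ℕ)) j i)]
    rw [Finset.sum_congr rfl fun k _ => h1 k, Finset.sum_comm]
    refine Finset.sum_eq_zero fun j _ => ?_
    rw [← Finset.mul_sum, ← map_sum, hCH, map_zero, mul_zero]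
  refine ⟨s, b, ?_, ?_⟩
  · show p ^ ((Fin.last s : Fin (s + 1)) : ℕ) * M.charpoly.coeff ((Fin.last s : Fin (s + 1)) : ℕ) ≠ 0
    have h1 : M.charpoly.coeff ((Fin.last s : Fin (s + 1)) : ℕ) = 1 := by
      have h2 := M.charpoly_monic
      have h3 : M.charpoly.natDegree = s := by
        rw [Matrix.charpoly_natDegree_eq_dim, Fintype.card_fin]
      rw [Monic, leadingCoeff, h3] at h2
      simpa using h2
    rw [h1, mul_one]
    exact pow_ne_zero _ hp0
  · intro d hd
    obtain ⟨q, r, hq, hr⟩ := hmax d hd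
    have hzD : ∑ k : Fin (s + 1), u ^ (k : ℕ) * d * aeval u (b k) ∈ D := by
      refine D.sum_mem fun k _ => ?_
      refine mul_aeval_mem D hmul hu ?_ _
      have : ∀ n : ℕ, u ^ n * d ∈ D := by
        intro n
        induction n with
        | zero => simpa using hd
        | succ n ih =>
          rw [pow_succ', mul_assoc]
          exact hmul _ hu _ ih
      exact this _
    refine htf _ hzD q hq ?_
    rw [Finset.sum_mul]
    have h1 : ∀ k : Fin (s + 1), u ^ (k : ℕ) * d * aeval u (b k) * aeval u q =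
        ∑ j, (u ^ (k : ℕ) * g j * aeval u (b k)) * aeval u (r j) := by
      intro k
      have h2 : aeval u (b k) * aeval u q = aeval u q * aeval u (b k) := by
        rw [← map_mul, ← map_mul, mul_comm]
      rw [mul_assoc, h2, ← mul_assoc, mul_assoc _ d, hr, Finset.mul_sum, Finset.sum_mul]
      refine Finset.sum_congr rfl fun j _ => ?_
      have h3 : aeval u (r j) * aeval u (b k) = aeval u (b k) * aeval u (r j) := by
        rw [← map_mul, ← map_mul, mul_comm]
      simp only [mul_assoc]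
      rw [h3]
    rw [Finset.sum_congr rfl fun k _ => h1 k, Finset.sum_comm]
    refine Finset.sum_eq_zero fun j _ => ?_
    rw [← Finset.sum_mul, hb, zero_mul]

end Pool.MP_b4ba8e
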