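import Pool.Agent.Lib.MP_b4ba8e_al.Defs

/-!
# MP_b4ba8e_al : module SCHUR

Schur's lemma for topologically irreducible `*`-closed sets of bounded operators on a complex
Hilbert space, and the linear independence transfer.
-/

set_option autoImplicit false

namespace Pool.MP_b4ba8e

variable {X : Type*} [NormedAddCommGroup X] [InnerProductSpace ℂ X] [CompleteSpace X]

/-- Schur's lemma for self-adjoint operators. -/
theorem schur_selfAdjoint (R : Set (X →L[ℂ] X))
    (hirr : ∀ Y : Submodule ℂ X, IsClosed (Y : Set X) → (∀ r ∈ R, ∀ y ∈ Y, r y ∈ Y) →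
      Y = ⊥ ∨ Y = ⊤)
    (A : X →L[ℂ] X) (hsa : IsSelfAdjoint A) (hA : ∀ r ∈ R, A * r = r * A) :
    ∃ c : ℂ, A = c • (1 : X →L[ℂ] X) := by
  classical
  by_cases hone : ∃ t : ℝ, spectrum ℝ A ⊆ {t}
  · obtain ⟨t, ht⟩ := hone
    refine ⟨(t : ℂ), ?_⟩
    have h := CFC.eq_algebraMap_of_spectrum_subset_singleton (R := ℝ) (a := A) t ht hsa
    rw [h, Algebra.algebraMap_eq_smul_one]
    ext x
    simp
  · exfalso
    have hne : ∃ s ∈ spectrum ℝ A, ∃ t ∈ spectrum ℝ A, s < t := by
      by_contra hcon
      push Not at hcon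
      apply hone
      by_cases hemp : (spectrum ℝ A).Nonempty
      · obtain ⟨s, hs⟩ := hemp
        refine ⟨s, fun t ht => ?_⟩
        have h1 := hcon s hs t ht
        have h2 := hcon t ht s hs
        simp only [Set.mem_singleton_iff]
        exact le_antisymm h1 h2
      · exact ⟨0, fun t ht => (hemp ⟨t, ht⟩).elim⟩
    obtain ⟨s, hs, t, ht, hst⟩ := hne
    set m : ℝ := (s + t) / 2 with hm
    set f : ℝ → ℝ := fun x => max (m - x) 0 with hf
    set g : ℝ → ℝ := fun x => max (x - m) 0 with hg
    have hfc : Continuous f := by fun_prop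
    have hgc : Continuous g := by fun_prop
    have hfg : cfc f A * cfc g A = 0 := by
      rw [← cfc_mul f g A hfc.continuousOn hgc.continuousOn]
      have : (fun x => f x * g x) = fun _ => (0 : ℝ) := by
        funext x
        rcases le_total x m with h | h
        · have : g x = 0 := by
            simp only [hg]
            exact max_eq_right (by linarith)
          rw [this, mul_zero]
        · have : f x = 0 := by
            simp only [hf]
            exact max_eq_right (by linarith)
          rw [this, zero_mul]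
      rw [this]
      simp
    have hnz : ∀ (φ : ℝ → ℝ), Continuous φ → ∀ z ∈ spectrum ℝ A, φ z ≠ 0 → cfc φ A ≠ 0 := by
      intro φ hφ z hz hφz h0
      have h1 := cfc_map_spectrum (R := ℝ) (f := φ) (a := A) hsa hφ.continuousOn
      rw [h0] at h1
      have h2 : φ z ∈ spectrum ℝ (0 : X →L[ℂ] X) := by
        rw [h1]
        exact ⟨z, hz, rfl⟩
      have h3 : spectrum ℝ (0 : X →L[ℂ] X) ⊆ {0} := by
        have := CFC.spectrum_algebraMap_subset (R := ℝ) (A := X →L[ℂ] X) (p := IsSelfAdjoint) 0
        simpa using this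
      exact hφz (h3 h2)
    have hfnz : cfc f A ≠ 0 := by
      refine hnz f hfc s hs ?_
      have : 0 < f s := by
        simp only [hf]
        exact lt_max_of_lt_left (by rw [hm]; linarith)
      exact this.ne'
    have hgnz : cfc g A ≠ 0 := by
      refine hnz g hgc t ht ?_
      have : 0 < g t := by
        simp only [hg]
        exact lt_max_of_lt_left (by rw [hm]; linarith)
      exact this.ne'
    have hker : ∀ r ∈ R, ∀ y ∈ LinearMap.ker (cfc f A : X →L[ℂ] X).toLinearMap,
        r y ∈ LinearMap.ker (cfc f A : X →L[ℂ] X).toLinearMap := by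
      intro r hr y hy
      have hcomm : Commute (cfc f A) r := Commute.cfc_real (show Commute A r from hA r hr) f
      have h1 : (cfc f A * r) y = (r * cfc f A) y := by rw [hcomm.eq]
      have h2 : cfc f A y = 0 := hy
      show cfc f A (r y) = 0
      have h3 : cfc f A (r y) = r (cfc f A y) := h1
      rw [h3, h2, map_zero]
    rcases hirr _ (cfc f A : X →L[ℂ] X).isClosed_ker hker with h | h
    · apply hgnz
      ext x
      have h1 : cfc g A x ∈ LinearMap.ker (cfc f A : X →L[ℂ] X).toLinearMap := by
        show cfc f A (cfc g A x) = 0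
        have : (cfc f A * cfc g A) x = 0 := by rw [hfg]; rfl
        exact this
      rw [h] at h1
      simpa using h1
    · apply hfnz
      ext x
      have h1 : x ∈ LinearMap.ker (cfc f A : X →L[ℂ] X).toLinearMap := by
        rw [h]; trivial
      simpa using h1

theorem schur (R : Set (X →L[ℂ] X)) (hstar : ∀ r ∈ R, star r ∈ R)
    (hirr : ∀ Y : Submodule ℂ X, IsClosed (Y : Set X) → (∀ r ∈ R, ∀ y ∈ Y, r y ∈ Y) →
      Y = ⊥ ∨ Y = ⊤)
    (A : X →L[ℂ] X) (hA : ∀ r ∈ R, A * r = r * A) :
    ∃ c : ℂ, A = c • (1 : X →L[ℂ] X) := by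
  have hA' : ∀ r ∈ R, star A * r = r * star A := by
    intro r hr
    have h := hA (star r) (hstar r hr)
    have h2 := congrArg star h
    simp only [star_mul, star_star] at h2
    exact h2.symm
  have h1 : ∃ c : ℂ, (A + star A) = c • (1 : X →L[ℂ] X) := by
    refine schur_selfAdjoint R hirr _ (IsSelfAdjoint.add_star_self A) ?_
    intro r hr
    rw [add_mul, mul_add, hA r hr, hA' r hr]
  have h2 : ∃ c : ℂ, (Complex.I • (A - star A)) = c • (1 : X →L[ℂ] X) := by
    refine schur_selfAdjoint R hirr _ ?_ ?_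
    · rw [isSelfAdjoint_iff, star_smul, star_sub, star_star]
      simp only [RCLike.star_def, Complex.conj_I, neg_smul, ← smul_neg, neg_sub]
    · intro r hr
      rw [smul_mul_assoc, mul_smul_comm, sub_mul, mul_sub, hA r hr, hA' r hr]
  obtain ⟨c, hc⟩ := h1
  obtain ⟨d, hd⟩ := h2
  refine ⟨(1 / 2 : ℂ) * (c - Complex.I * d), ?_⟩
  have h3 : A - star A = (-Complex.I * d) • (1 : X →L[ℂ] X) := by
    have := congrArg (fun z => (-Complex.I) • z) hd
    simp only [smul_smul, neg_mul, Complex.I_mul_I, neg_neg, one_smul] at this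
    rw [this]
    congr 1
    ring
  have h4 : A = (1 / 2 : ℂ) • ((A + star A) + (A - star A)) := by
    have : (A + star A) + (A - star A) = (2 : ℂ) • A := by
      rw [two_smul]
      abel
    rw [this, smul_smul]
    norm_num
  rw [h4, hc, h3, ← add_smul, smul_smul]
  congr 1
  ring

/-- Diagonal action on the Hilbert sum. -/
noncomputable def diagAct {n : ℕ} (r : X →L[ℂ] X) :
    PiLp 2 (fun _ : Fin n => X) →L[ℂ] PiLp 2 (fun _ : Fin n => X) :=
  ((PiLp.continuousLinearEquiv 2 ℂ (fun _ : Fin n => X)).symm : _ →L[ℂ] _) ∘L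
    (ContinuousLinearMap.pi fun i => r ∘L PiLp.proj 2 (fun _ : Fin n => X) i)

omit [CompleteSpace X] in
theorem diagAct_apply {n : ℕ} (r : X →L[ℂ] X) (w : PiLp 2 (fun _ : Fin n => X)) (i : Fin n) :
    diagAct r w i = r (w i) := by
  simp [diagAct]

theorem inner_diagAct_left {n : ℕ} (r : X →L[ℂ] X) (v w : PiLp 2 (fun _ : Fin n => X)) :
    inner ℂ (diagAct (star r) v) w = inner ℂ v (diagAct r w) := by
  simp only [PiLp.inner_apply, diagAct_apply]
  refine Finset.sum_congr rfl fun i _ => ?_
  rw [ContinuousLinearMap.star_eq_adjoint, ContinuousLinearMap.adjoint_inner_left]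

/-- The projection on a closed subspace of the Hilbert sum, invariant under the diagonal action of
a `*`-closed set, commutes with this action. -/
theorem starProjection_diagAct {n : ℕ} (R : Set (X →L[ℂ] X)) (hstar : ∀ r ∈ R, star r ∈ R)
    (M : Submodule ℂ (PiLp 2 (fun _ : Fin n => X))) [M.HasOrthogonalProjection]
    (hM : ∀ r ∈ R, ∀ w ∈ M, diagAct r w ∈ M) (r : X →L[ℂ] X) (hr : r ∈ R)
    (w : PiLp 2 (fun _ : Fin n => X)) :
    M.starProjection (diagAct r w) = diagAct r (M.starProjection w) := by
  apply Submodule.eq_starProjection_of_mem_of_inner_eq_zero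
  · exact hM r hr _ (Submodule.starProjection_apply_mem _ _)
  · intro v hv
    rw [← map_sub]
    have h1 := inner_diagAct_left r v (w - M.starProjection w)
    have h2 : inner ℂ (diagAct (star r) v) (w - M.starProjection w) = 0 := by
      have h3 : w - M.starProjection w ∈ Mᗮ := Submodule.sub_starProjection_mem_orthogonal _
      exact (Submodule.mem_orthogonal _ _).1 h3 _ (hM _ (hstar r hr) _ hv)
    rw [h1] at h2
    rw [← inner_conj_symm, h2, map_zero]

/-- Linear independence transfer: if `∑ A_k g B_k = 0` for all `g` in an irreducible `*`-closed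
algebra `R` and the `A_k` are linearly independent, then all `B_k` vanish. -/
theorem independence_transfer (R : Subalgebra ℂ (X →L[ℂ] X)) (hstar : ∀ r ∈ R, star r ∈ R)
    (hirr : ∀ Y : Submodule ℂ X, IsClosed (Y : Set X) → (∀ r ∈ R, ∀ y ∈ Y, r y ∈ Y) →
      Y = ⊥ ∨ Y = ⊤)
    {n : ℕ} (A B : Fin n → (X →L[ℂ] X)) (hA : LinearIndependent ℂ A)
    (h : ∀ g ∈ R, ∑ k, A k * g * B k = 0) : ∀ k, B k = 0 := by
  classical
  intro k₀
  ext ξ
  -- the linear map `r ↦ (r B_k ξ)_k`
  let E := PiLp 2 (fun _ : Fin n => X)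
  let Φ : (X →L[ℂ] X) →ₗ[ℂ] E :=
    { toFun := fun r => WithLp.toLp 2 (fun k => r (B k ξ))
      map_add' := by
        intro r s
        ext k
        rfl
      map_smul' := by
        intro c r
        ext k
        rfl }
  have hΦ : ∀ r k, Φ r k = r (B k ξ) := fun r k => rfl
  let M₀ : Submodule ℂ E := (Subalgebra.toSubmodule R).map Φ
  let M : Submodule ℂ E := M₀.topologicalClosure
  have hMcl : IsClosed (M : Set E) := M₀.isClosed_topologicalClosure
  have : CompleteSpace M := hMcl.completeSpace_coe
  have hM : ∀ r ∈ (R : Set (X →L[ℂ] X)), ∀ w ∈ M, diagAct r w ∈ M := by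
    intro r hr w hw
    have h1 : (M₀ : Set E) ⊆ (fun w => diagAct r w) ⁻¹' (M : Set E) := by
      rintro _ ⟨s, hs, rfl⟩
      have : diagAct r (Φ s) = Φ (r * s) := by
        ext k
        rw [diagAct_apply]
        rfl
      show diagAct r (Φ s) ∈ M
      rw [this]
      exact M₀.le_topologicalClosure ⟨r * s, R.mul_mem hr hs, rfl⟩
    have h2 : IsClosed ((fun w => diagAct r w) ⁻¹' (M : Set E)) :=
      hMcl.preimage (diagAct r).continuous
    have h3 : (M : Set E) ⊆ (fun w => diagAct r w) ⁻¹' (M : Set E) := by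
      have : (M : Set E) = closure (M₀ : Set E) := Submodule.topologicalClosure_coe M₀
      rw [this] at h1 ⊢
      exact closure_minimal h1 (by rw [← this]; exact h2)
    exact h3 hw
  -- relation on `M`
  have hrel : ∀ w ∈ M, ∑ k, A k (w k) = 0 := by
    intro w hw
    have h2 : IsClosed {w : E | ∑ k, A k (w k) = 0} := by
      refine isClosed_eq ?_ continuous_const
      refine continuous_finsetSum _ fun k _ => ?_
      exact (A k).continuous.comp (PiLp.proj 2 (fun _ : Fin n => X) (𝕜 := ℂ) k).continuous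
    have h1 : (M₀ : Set E) ⊆ {w : E | ∑ k, A k (w k) = 0} := by
      rintro _ ⟨s, hs, rfl⟩
      have h3 := congrArg (fun T : X →L[ℂ] X => T ξ) (h s hs)
      have h4 : ∑ k, (A k) (s ((B k) ξ)) = 0 := by simpa using h3
      exact h4
    have h3 : (M : Set E) ⊆ {w : E | ∑ k, A k (w k) = 0} := by
      have : (M : Set E) = closure (M₀ : Set E) := Submodule.topologicalClosure_coe M₀
      rw [this]
      exact closure_minimal h1 h2
    exact h3 hw
  -- the entries of the projection
  let ι : Fin n → (X →L[ℂ] E) := fun l =>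
    ((PiLp.continuousLinearEquiv 2 ℂ (fun _ : Fin n => X)).symm : _ →L[ℂ] _) ∘L
    (ContinuousLinearMap.single ℂ (fun _ : Fin n => X) l)
  have hι : ∀ l x, ι l x = PiLp.single 2 l x := by
    intro l x
    rfl
  have hdι : ∀ (r : X →L[ℂ] X) l x, diagAct r (ι l x) = ι l (r x) := by
    intro r l x
    ext k
    rw [diagAct_apply, hι, hι]
    by_cases hkl : k = l
    · subst hkl
      simp
    · simp [hkl]
  let Q : Fin n → Fin n → (X →L[ℂ] X) := fun k l =>
    (PiLp.proj 2 (fun _ : Fin n => X) (𝕜 := ℂ) k) ∘L M.starProjection ∘L ι l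
  have hQ : ∀ k l x, Q k l x = (M.starProjection (ι l x)) k := fun k l x => rfl
  have hQc : ∀ k l, ∃ c : ℂ, Q k l = c • (1 : X →L[ℂ] X) := by
    intro k l
    refine schur (R : Set (X →L[ℂ] X)) hstar hirr (Q k l) ?_
    intro r hr
    ext x
    show Q k l (r x) = r (Q k l x)
    rw [hQ, hQ, ← hdι, starProjection_diagAct (R : Set (X →L[ℂ] X)) hstar M hM r hr,
      diagAct_apply]
  choose c hc using hQc
  have hc0 : ∀ l, ∀ k, c k l = 0 := by
    intro l
    have h1 : ∑ k, c k l • A k = 0 := by
      ext x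
      have h2 := hrel _ (Submodule.starProjection_apply_mem M (ι l x))
      have h3 : ∀ k, (M.starProjection (ι l x)) k = c k l • x := by
        intro k
        rw [← hQ, hc]
        simp
      simp only [h3, map_smul] at h2
      simpa using h2
    exact fun k => (Fintype.linearIndependent_iff.1 hA) (fun k => c k l) h1 k
  have hP0 : ∀ w : E, M.starProjection w = 0 := by
    intro w
    have hw : w = ∑ l, ι l (w l) := by
      ext k
      have : (∑ l, ι l (w l)) k = ∑ l, (ι l (w l)) k :=
        map_sum (PiLp.proj 2 (fun _ : Fin n => X) (𝕜 := ℂ) k) _ _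
      rw [this, Finset.sum_eq_single k]
      · rw [hι]; simp
      · intro l _ hl
        rw [hι]
        simp [Ne.symm hl]
      · intro hk
        exact (hk (Finset.mem_univ k)).elim
    rw [hw, map_sum]
    refine Finset.sum_eq_zero fun l _ => ?_
    ext k
    rw [← hQ, hc, hc0]
    simp
  have hmem : Φ 1 ∈ M := M₀.le_topologicalClosure ⟨1, R.one_mem, rfl⟩
  have h5 := Submodule.starProjection_eq_self_iff.2 hmem
  rw [hP0] at h5
  have h6 := congrArg (fun w : E => w k₀) h5
  simp only [hΦ] at h6
  simpa using h6.symm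

end Pool.MP_b4ba8e
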