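import Pool.Agent.Lib.MP_b4ba8e_al.Growth2
import Pool.Agent.Lib.MP_b4ba8e_al.Schur
import Pool.Agent.Lib.MP_b4ba8e_al.Pid

/-!
# MP_b4ba8e_al : linear growth implies finite dimension.
-/

set_option autoImplicit false
set_option linter.unusedSectionVars false

namespace Pool.MP_b4ba8e

open Polynomial



variable {E : Type*} [NormedAddCommGroup E] [InnerProductSpace ℂ E] [CompleteSpace E]

/-- the map `r ↦ h r h`. -/
def cornerMap (h : E →L[ℂ] E) : (E →L[ℂ] E) →ₗ[ℂ] (E →L[ℂ] E) where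
  toFun r := h * r * h
  map_add' := by intro a b; rw [mul_add, add_mul]
  map_smul' := by intro c a; simp only [mul_smul_comm, smul_mul_assoc, RingHom.id_apply]

@[simp] theorem cornerMap_apply (h r : E →L[ℂ] E) : cornerMap h r = h * r * h := rfl

theorem aeval_mem (R : Subalgebra ℂ (E →L[ℂ] E)) (u : E →L[ℂ] E) (hu : u ∈ R) (p : ℂ[X]) :
    aeval u p ∈ R := by
  have h1 : aeval u p = ((aeval (⟨u, hu⟩ : R) p : R) : E →L[ℂ] E) := by
    have := Polynomial.aeval_algHom_apply R.val (⟨u, hu⟩ : R) p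
    exact this
  rw [h1]
  exact Subtype.property _

/-- dependence over `ℂ[u]` from linear growth. -/
theorem dependent_of_growth (S : Submodule ℂ (E →L[ℂ] E)) (h1 : 1 ∈ S) (C : ℕ)
    (hdim : ∀ n : ℕ, Module.Finite ℂ ↥(S ^ n) ∧ Module.finrank ℂ ↥(S ^ n) ≤ C * (n + 1))
    (u : E →L[ℂ] E) (q : ℕ) (hu : u ∈ S ^ q)
    (g : Fin (C * q + 1) → (E →L[ℂ] E))
    (hg : ∀ i, g i ∈ Algebra.adjoin ℂ (S : Set (E →L[ℂ] E))) :
    ∃ p : Fin (C * q + 1) → ℂ[X], (∃ i, p i ≠ 0) ∧ ∑ i, g i * aeval u (p i) = 0 := by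
  obtain ⟨p₀, hp₀⟩ : ∃ p, ∀ i, g i ∈ S ^ p := by
    have : ∀ i, ∃ p, g i ∈ S ^ p := fun i => (mem_adjoin_iff S h1 _).mp (hg i)
    choose t ht using this
    exact ⟨Finset.univ.sup t, fun i =>
      pow_mono_of_one_mem S h1 (Finset.le_sup (f := t) (Finset.mem_univ i)) (ht i)⟩
  have hupow : ∀ j, u ^ j ∈ S ^ (q * j) := by
    intro j
    induction j with
    | zero => rw [mul_zero, pow_zero]; exact one_mem_pow_zero S
    | succ j ih =>
      rw [pow_succ, Nat.mul_succ]
      exact mul_mem_pow_add S h1 ih hu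
  set n : ℕ := C * (p₀ + 1) with hn
  set M : ℕ := p₀ + q * n with hM
  have hmem : ∀ (i : Fin (C * q + 1)) (j : Fin (n + 1)), g i * u ^ (j : ℕ) ∈ S ^ M := by
    intro i j
    refine pow_mono_of_one_mem S h1 ?_ (mul_mem_pow_add S h1 (hp₀ i) (hupow j))
    have : (j : ℕ) ≤ n := Nat.lt_succ_iff.mp j.2
    have := Nat.mul_le_mul_left q this
    omega
  let v : Fin (C * q + 1) × Fin (n + 1) → ↥(S ^ M) := fun ij => ⟨_, hmem ij.1 ij.2⟩
  have := (hdim M).1
  have hnot : ¬ LinearIndependent ℂ v := by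
    intro hli
    have h3 := hli.fintype_card_le_finrank
    rw [Fintype.card_prod, Fintype.card_fin, Fintype.card_fin] at h3
    have h4 := (hdim M).2
    have h5 : (C * q + 1) * (n + 1) ≤ C * (p₀ + q * n + 1) := h3.trans h4
    have h6 : C * (p₀ + q * n + 1) = C * p₀ + C * q * n + C := by ring
    have h7 : (C * q + 1) * (n + 1) = C * q * n + C * q + n + 1 := by ring
    have h8 : n = C * p₀ + C := by rw [hn]; ring
    omega
  rw [Fintype.linearIndependent_iff] at hnot
  push Not at hnot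
  obtain ⟨c, hc, ⟨i₀, j₀⟩, hij⟩ := hnot
  refine ⟨fun i => ∑ j : Fin (n + 1), Polynomial.C (c (i, j)) * Polynomial.X ^ (j : ℕ),
    ⟨i₀, ?_⟩, ?_⟩
  · intro hz
    have h9 := congrArg (fun p : ℂ[X] => p.coeff (j₀ : ℕ)) hz
    simp only [Polynomial.finsetSum_coeff, Polynomial.coeff_C_mul, Polynomial.coeff_X_pow,
      Polynomial.coeff_zero] at h9
    rw [Finset.sum_eq_single j₀] at h9
    · simp at h9
      exact hij h9
    · intro j _ hj
      rw [if_neg (fun h => hj (Fin.ext h.symm)), mul_zero]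
    · intro h; exact absurd (Finset.mem_univ _) h
  · have h9 := congrArg (fun x : ↥(S ^ M) => (x : E →L[ℂ] E)) hc
    simp only [Submodule.coe_sum, Submodule.coe_smul, Submodule.coe_zero] at h9
    rw [Fintype.sum_prod_type] at h9
    rw [← h9]
    refine Finset.sum_congr rfl fun i _ => ?_
    rw [map_sum, Finset.mul_sum]
    refine Finset.sum_congr rfl fun j _ => ?_
    show g i * aeval u (Polynomial.C (c (i, j)) * Polynomial.X ^ (j : ℕ)) =
      c (i, j) • (g i * u ^ (j : ℕ))
    rw [map_mul, aeval_C, map_pow, aeval_X, Algebra.algebraMap_eq_smul_one, smul_mul_assoc, one_mul,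
      mul_smul_comm]

/-- **Growth theorem.** -/
theorem finiteDimensional_of_linear_growth (S : Submodule ℂ (E →L[ℂ] E))
    (h1 : 1 ∈ S) (hstar : ∀ s ∈ S, star s ∈ S) (C : ℕ)
    (hdim : ∀ n : ℕ, Module.Finite ℂ ↥(S ^ n) ∧ Module.finrank ℂ ↥(S ^ n) ≤ C * (n + 1))
    (hirr : ∀ Y : Submodule ℂ E, IsClosed (Y : Set E) → (∀ s ∈ S, ∀ y ∈ Y, s y ∈ Y) →
      Y = ⊥ ∨ Y = ⊤) :
    FiniteDimensional ℂ E := by
  by_contra hX
  have hnt : Nontrivial E := by
    by_contra hcon
    rw [not_nontrivial_iff_subsingleton] at hcon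
    exact hX inferInstance
  set R := Algebra.adjoin ℂ (S : Set (E →L[ℂ] E)) with hRdef
  have hRstar : ∀ r ∈ R, star r ∈ R := star_mem_adjoin S hstar
  have hRirr : ∀ Y : Submodule ℂ E, IsClosed (Y : Set E) → (∀ r ∈ R, ∀ y ∈ Y, r y ∈ Y) →
      Y = ⊥ ∨ Y = ⊤ := fun Y hY h => hirr Y hY fun s hs => h s (Algebra.subset_adjoin hs)
  have hC : ∀ (x : ℕ → E) (k : ℕ), Chain (R : Set (E →L[ℂ] E)) x k → k ≤ C := fun x k hx =>
    chain_le S h1 C hdim hirr hX x k hx
  obtain ⟨L, hLR, hLmul, ⟨f, hfL, hf0⟩, hLker⟩ := exists_leftIdeal R C hC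
  -- `h = f* f`
  set h : E →L[ℂ] E := star f * f with hh
  have hhL : h ∈ L := hLmul _ (hRstar _ (hLR hfL)) _ hfL
  have hhR : h ∈ R := hLR hhL
  have hsa : star h = h := by rw [hh, star_mul, star_star]
  have hsym : ∀ x y, inner ℂ (h x) y = inner ℂ x (h y) := by
    intro x y
    rw [← ContinuousLinearMap.adjoint_inner_right, ← ContinuousLinearMap.star_eq_adjoint, hsa]
  have hhzero : ∀ x, h (h x) = 0 → h x = 0 := by
    intro x hx
    have : inner ℂ (h x) (h x) = (0 : ℂ) := by
      rw [hsym, hx, inner_zero_right]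
    exact inner_self_eq_zero.mp this
  have hh0 : h ≠ 0 := by
    intro e
    apply hf0
    ext x
    have h2 : inner ℂ (f x) (f x) = inner ℂ x (h x) := by
      rw [hh]
      show _ = inner ℂ x (star f (f x))
      rw [ContinuousLinearMap.star_eq_adjoint, ContinuousLinearMap.adjoint_inner_right]
    rw [e] at h2
    simp only [zero_apply, inner_zero_right] at h2
    simpa using inner_self_eq_zero.mp h2
  set D : Submodule ℂ (E →L[ℂ] E) := R.toSubmodule.map (cornerMap h) with hD
  have hDR : ∀ d ∈ D, d ∈ R := by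
    rintro _ ⟨r, hr, rfl⟩
    exact mul_mem (mul_mem (S := Subalgebra ℂ (E →L[ℂ] E)) hhR hr) hhR
  have hDL : ∀ d ∈ D, d ∈ L := by
    rintro _ ⟨r, hr, rfl⟩
    exact hLmul _ (mul_mem (S := Subalgebra ℂ (E →L[ℂ] E)) hhR hr) _ hhL
  have hDmul : ∀ x ∈ D, ∀ y ∈ D, x * y ∈ D := by
    rintro _ ⟨r, hr, rfl⟩ _ ⟨t, ht, rfl⟩
    have hr' : r ∈ R := hr
    have ht' : t ∈ R := ht
    refine ⟨r * (h * h) * t, R.mul_mem (R.mul_mem hr' (R.mul_mem hhR hhR)) ht', ?_⟩
    simp only [cornerMap_apply, mul_assoc]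
  have hDdom : ∀ x ∈ D, ∀ y ∈ D, x * y = 0 → x = 0 ∨ y = 0 := by
    intro x hx y hy hxy
    by_cases hx0 : x = 0
    · exact Or.inl hx0
    right
    obtain ⟨r, hr, rfl⟩ := hy
    ext z
    have h2 : x ((h * r * h) z) = 0 := by
      have := congrArg (fun T : E →L[ℂ] E => T z) hxy
      exact this
    have h3 : h ((h * r * h) z) = 0 := hLker h hhL x (hDL x hx) hx0 _ h2
    have h4 : h (h (r (h z))) = 0 := h3
    exact hhzero _ h4
  have hh2D : h * h ∈ D := ⟨1, one_mem R, by simp⟩
  have hh20 : h * h ≠ 0 := by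
    intro e
    apply hh0
    ext z
    have := congrArg (fun T : E →L[ℂ] E => T z) e
    exact hhzero z this
  by_cases halg : ∀ u ∈ D, ∃ p : ℂ[X], p ≠ 0 ∧ aeval u p = 0
  · refine no_rank_one R hRstar hRirr hX C hC h hhR hsa hh0 ?_
    intro r hr
    exact domain_algebraic D hDmul hDdom halg (h * h) hh2D hh20 (h * r * h) ⟨r, hr, rfl⟩
  · push Not at halg
    obtain ⟨u, huD, hu⟩ := halg
    have htr : ∀ p : ℂ[X], aeval u p = 0 → p = 0 := by
      intro p hp
      by_contra hne
      exact hu p hne hp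
    obtain ⟨q, hq⟩ := (mem_adjoin_iff S h1 u).mp (hDR u huD)
    obtain ⟨s, b, hbs, hid⟩ := exists_identity D hDmul hDdom u huD htr (C * q + 1)
      (fun g hg => dependent_of_growth S h1 C hdim u q hq g (fun i => hDR _ (hg i)))
    obtain ⟨r, hr, hru⟩ := huD
    have hru' : u = h * r * h := hru.symm
    have hB := independence_transfer R hRstar hRirr (fun k : Fin (s + 1) => u ^ (k : ℕ) * h)
      (fun k => h * aeval u (b k)) ?_ ?_ (Fin.last s)
    · -- `h b_s(u) = 0`
      have h5 : aeval u (Polynomial.X * b (Fin.last s)) = 0 := by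
        rw [map_mul, aeval_X]
        calc u * aeval u (b (Fin.last s)) = (h * r) * (h * aeval u (b (Fin.last s))) := by
              rw [← mul_assoc, ← hru']
          _ = 0 := by rw [hB, mul_zero]
      have h6 := htr _ h5
      rcases mul_eq_zero.mp h6 with h7 | h7
      · exact Polynomial.X_ne_zero h7
      · exact hbs h7
    · -- independence
      rw [Fintype.linearIndependent_iff]
      intro c hc
      set p : ℂ[X] := ∑ k : Fin (s + 1), Polynomial.C (c k) * Polynomial.X ^ (k : ℕ) with hp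
      have h5 : aeval u p * h = 0 := by
        rw [hp, map_sum, Finset.sum_mul, ← hc]
        refine Finset.sum_congr rfl fun k _ => ?_
        rw [map_mul, aeval_C, map_pow, aeval_X, Algebra.algebraMap_eq_smul_one, smul_mul_assoc,
          one_mul, smul_mul_assoc]
      have h6 : aeval u (p * Polynomial.X) = 0 := by
        rw [map_mul, aeval_X]
        calc aeval u p * u = aeval u p * (h * r * h) := by rw [← hru']
          _ = (aeval u p * h) * (r * h) := by simp only [mul_assoc]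
          _ = 0 := by rw [h5, zero_mul]
      have h7 := htr _ h6
      have h8 : p = 0 := by
        rcases mul_eq_zero.mp h7 with h7 | h7
        · exact h7
        · exact absurd h7 Polynomial.X_ne_zero
      intro k
      have h9 := congrArg (fun p : ℂ[X] => p.coeff (k : ℕ)) h8
      simp only [hp, Polynomial.finsetSum_coeff, Polynomial.coeff_C_mul, Polynomial.coeff_X_pow,
        Polynomial.coeff_zero] at h9
      rw [Finset.sum_eq_single k] at h9
      · simpa using h9
      · intro j _ hj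
        rw [if_neg (fun h => hj (Fin.ext h.symm)), mul_zero]
      · intro h; exact absurd (Finset.mem_univ _) h
    · intro g hg
      have := hid (h * g * h) ⟨g, hg, rfl⟩
      rw [← this]
      refine Finset.sum_congr rfl fun k _ => ?_
      simp only [mul_assoc]

end Pool.MP_b4ba8e
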