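import Mathlib

/-!
# MP_b4ba8e_al : linear growth, part 1 (chains).
-/

set_option autoImplicit false
set_option linter.unusedSectionVars false

namespace Pool.MP_b4ba8e

variable {X : Type*} [NormedAddCommGroup X] [InnerProductSpace ℂ X] [CompleteSpace X]

/-- Evaluation at `x`. -/
def ev (x : X) : (X →L[ℂ] X) →ₗ[ℂ] X where
  toFun s := s x
  map_add' := by intro a b; rfl
  map_smul' := by intro c a; rfl

@[simp] theorem ev_apply (x : X) (s : X →L[ℂ] X) : ev x s = s x := rfl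

section Basic

variable (S : Submodule ℂ (X →L[ℂ] X))

theorem pow_mono_of_one_mem (h1 : 1 ∈ S) {m n : ℕ} (h : m ≤ n) : S ^ m ≤ S ^ n := by
  obtain ⟨k, rfl⟩ := Nat.exists_eq_add_of_le h
  induction k with
  | zero => exact le_rfl
  | succ k ih =>
    refine (ih (Nat.le_add_right _ _)).trans ?_
    intro x hx
    have : x * 1 ∈ S ^ (m + k) * S := Submodule.mul_mem_mul hx h1
    rw [mul_one] at this
    rw [← add_assoc, Submodule.pow_succ]
    exact this

theorem mul_mem_pow_add (h1 : 1 ∈ S) {m n : ℕ} {x y : X →L[ℂ] X} (hx : x ∈ S ^ m)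
    (hy : y ∈ S ^ n) : x * y ∈ S ^ (m + n) := by
  rcases Nat.eq_zero_or_pos n with rfl | hn
  · rw [Submodule.pow_zero, Submodule.mem_one] at hy
    obtain ⟨c, rfl⟩ := hy
    rw [Algebra.algebraMap_eq_smul_one, mul_smul_comm, mul_one]
    exact Submodule.smul_mem _ _ (pow_mono_of_one_mem S h1 (Nat.le_add_right _ _) hx)
  · rw [Submodule.pow_add _ hn.ne']
    exact Submodule.mul_mem_mul hx hy

theorem one_mem_pow_zero : (1 : X →L[ℂ] X) ∈ S ^ 0 := by
  rw [Submodule.pow_zero]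
  exact Submodule.one_le.mp le_rfl

theorem mem_adjoin_iff (h1 : 1 ∈ S) (r : X →L[ℂ] X) :
    r ∈ Algebra.adjoin ℂ (S : Set (X →L[ℂ] X)) ↔ ∃ n : ℕ, r ∈ S ^ n := by
  constructor
  · intro hr
    induction hr using Algebra.adjoin_induction with
    | mem x hx => exact ⟨1, by rw [Submodule.pow_one]; exact hx⟩
    | algebraMap c =>
      refine ⟨1, ?_⟩
      rw [Submodule.pow_one, Algebra.algebraMap_eq_smul_one]
      exact S.smul_mem c h1
    | add x y _ _ hx hy =>
      obtain ⟨n, hn⟩ := hx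
      obtain ⟨m, hm⟩ := hy
      exact ⟨max n m, Submodule.add_mem _ (pow_mono_of_one_mem S h1 (le_max_left _ _) hn)
        (pow_mono_of_one_mem S h1 (le_max_right _ _) hm)⟩
    | mul x y _ _ hx hy =>
      obtain ⟨n, hn⟩ := hx
      obtain ⟨m, hm⟩ := hy
      exact ⟨n + m, mul_mem_pow_add S h1 hn hm⟩
  · rintro ⟨n, hn⟩
    have : S ^ n ≤ Subalgebra.toSubmodule (Algebra.adjoin ℂ (S : Set (X →L[ℂ] X))) := by
      clear hn
      induction n with
      | zero =>
        rw [Submodule.pow_zero, Submodule.one_le]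
        exact one_mem (Algebra.adjoin ℂ (S : Set (X →L[ℂ] X)))
      | succ n ih =>
        rw [Submodule.pow_succ, Submodule.mul_le]
        intro a ha b hb
        have ha' : a ∈ Algebra.adjoin ℂ (S : Set (X →L[ℂ] X)) := ih ha
        exact (Algebra.adjoin ℂ (S : Set (X →L[ℂ] X))).mul_mem ha' (Algebra.subset_adjoin hb)
    exact this hn

theorem star_mem_adjoin (hstar : ∀ s ∈ S, star s ∈ S) (r : X →L[ℂ] X)
    (hr : r ∈ Algebra.adjoin ℂ (S : Set (X →L[ℂ] X))) :
    star r ∈ Algebra.adjoin ℂ (S : Set (X →L[ℂ] X)) := by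
  induction hr using Algebra.adjoin_induction with
  | mem x hx => exact Algebra.subset_adjoin (hstar x hx)
  | algebraMap c =>
    rw [Algebra.algebraMap_eq_smul_one, star_smul, star_one]
    exact Subalgebra.smul_mem _ (one_mem _) _
  | add x y _ _ hx hy => rw [star_add]; exact add_mem hx hy
  | mul x y _ _ hx hy => rw [star_mul]; exact mul_mem hy hx

end Basic

/-- rank-nullity for a submodule. -/
theorem finrank_map_add_inf_ker {E F : Type*} [AddCommGroup E] [Module ℂ E] [AddCommGroup F]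
    [Module ℂ F] (W : Submodule ℂ E) [Module.Finite ℂ W] (f : E →ₗ[ℂ] F) :
    Module.finrank ℂ (W.map f) + Module.finrank ℂ ↥(W ⊓ LinearMap.ker f) =
      Module.finrank ℂ W := by
  have h := LinearMap.finrank_range_add_finrank_ker (f.domRestrict W)
  rw [← h]
  congr 1
  · rw [LinearMap.range_domRestrict]
  · have e : Submodule.map W.subtype (LinearMap.ker (f.domRestrict W)) = W ⊓ LinearMap.ker f := by
      ext x
      simp only [Submodule.mem_map, LinearMap.mem_ker, Submodule.mem_inf]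
      constructor
      · rintro ⟨y, hy, rfl⟩
        exact ⟨y.2, hy⟩
      · rintro ⟨hx, hfx⟩
        exact ⟨⟨x, hx⟩, hfx, rfl⟩
    rw [← e]
    exact (LinearEquiv.finrank_eq
      (Submodule.equivMapOfInjective W.subtype W.injective_subtype
        (LinearMap.ker (f.domRestrict W)))).symm

section Growth

variable (S : Submodule ℂ (X →L[ℂ] X))

/-- Step 1: `dim S^n x ≥ n + 1`. -/
theorem growth_vector
    (h1 : 1 ∈ S)
    (hfin : ∀ n : ℕ, Module.Finite ℂ ↥(S ^ n))
    (hirr : ∀ Y : Submodule ℂ X, IsClosed (Y : Set X) → (∀ s ∈ S, ∀ y ∈ Y, s y ∈ Y) →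
      Y = ⊥ ∨ Y = ⊤)
    (hX : ¬ FiniteDimensional ℂ X) (x : X) (hx : x ≠ 0) (n : ℕ) :
    n + 1 ≤ Module.finrank ℂ ((S ^ n).map (ev x)) := by
  induction n with
  | zero =>
    have hxm : x ∈ (S ^ 0).map (ev x) := ⟨1, one_mem_pow_zero S, rfl⟩
    have := hfin 0
    have : 0 < Module.finrank ℂ ((S ^ 0).map (ev x)) := by
      rw [Module.finrank_pos_iff]
      exact ⟨⟨⟨x, hxm⟩, 0, fun h => hx (by simpa using congrArg Subtype.val h)⟩⟩
    omega
  | succ n ih =>
    have := hfin n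
    have := hfin (n + 1)
    have hle : (S ^ n).map (ev x) ≤ (S ^ (n + 1)).map (ev x) :=
      Submodule.map_mono (pow_mono_of_one_mem S h1 (Nat.le_succ n))
    have hne : (S ^ n).map (ev x) ≠ (S ^ (n + 1)).map (ev x) := by
      intro heq
      have hcl : IsClosed (((S ^ n).map (ev x) : Submodule ℂ X) : Set X) :=
        Submodule.closed_of_finiteDimensional _
      have hinv : ∀ s ∈ S, ∀ y ∈ (S ^ n).map (ev x), s y ∈ (S ^ n).map (ev x) := by
        intro s hs y hy
        obtain ⟨t, ht, rfl⟩ := hy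
        rw [heq]
        refine ⟨s * t, ?_, rfl⟩
        rw [add_comm]
        exact mul_mem_pow_add S h1 (by rw [Submodule.pow_one]; exact hs) ht
      rcases hirr _ hcl hinv with h | h
      · have hxm : x ∈ (S ^ n).map (ev x) := by
          refine ⟨1, ?_, rfl⟩
          exact pow_mono_of_one_mem S h1 (Nat.zero_le n) (one_mem_pow_zero S)
        rw [h] at hxm
        exact hx (by simpa using hxm)
      · apply hX
        have : Module.Finite ℂ (⊤ : Submodule ℂ X) := by
          rw [← h]; infer_instance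
        exact Module.finite_def.mpr ((Submodule.fg_top _).mp this.fg_top)
    have hlt : (S ^ n).map (ev x) < (S ^ (n + 1)).map (ev x) := lt_of_le_of_ne hle hne
    have := Submodule.finrank_lt_finrank_of_lt hlt
    omega

/-- A chain of length `k`. -/
def Chain (R : Set (X →L[ℂ] X)) (x : ℕ → X) (k : ℕ) : Prop :=
  ∀ i < k, ∃ r ∈ R, (∀ j < i, r (x j) = 0) ∧ r (x i) ≠ 0

/-- The submodule of `W` killing `x_0, …, x_{i-1}`. -/
def annW (W : Submodule ℂ (X →L[ℂ] X)) (x : ℕ → X) : ℕ → Submodule ℂ (X →L[ℂ] X)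
  | 0 => W
  | i + 1 => annW W x i ⊓ LinearMap.ker (ev (x i))

theorem mem_annW (W : Submodule ℂ (X →L[ℂ] X)) (x : ℕ → X) (i : ℕ) (s : X →L[ℂ] X) :
    s ∈ annW W x i ↔ s ∈ W ∧ ∀ j < i, s (x j) = 0 := by
  induction i with
  | zero => simp [annW]
  | succ i ih =>
    rw [annW, Submodule.mem_inf, ih, LinearMap.mem_ker, ev_apply]
    constructor
    · rintro ⟨⟨h1, h2⟩, h3⟩
      refine ⟨h1, fun j hj => ?_⟩
      rcases Nat.lt_succ_iff_lt_or_eq.mp hj with h | h
      · exact h2 j h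
      · rw [h]; exact h3
    · rintro ⟨h1, h2⟩
      exact ⟨⟨h1, fun j hj => h2 j (Nat.lt_succ_of_lt hj)⟩, h2 i (Nat.lt_succ_self i)⟩

theorem chain_finrank
    (h1 : 1 ∈ S)
    (hfin : ∀ n : ℕ, Module.Finite ℂ ↥(S ^ n))
    (hirr : ∀ Y : Submodule ℂ X, IsClosed (Y : Set X) → (∀ s ∈ S, ∀ y ∈ Y, s y ∈ Y) →
      Y = ⊥ ∨ Y = ⊤)
    (hX : ¬ FiniteDimensional ℂ X) (x : ℕ → X) (k p n : ℕ)
    (hch : Chain (S ^ p : Submodule ℂ (X →L[ℂ] X)) x k) :
    k * (n + 1) ≤ Module.finrank ℂ ↥(S ^ (n + p)) := by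
  have := hfin (n + p)
  have hfinW : ∀ i, Module.Finite ℂ ↥(annW (S ^ (n + p)) x i) := by
    intro i
    refine Submodule.finiteDimensional_of_le (S₂ := S ^ (n + p)) ?_
    intro s hs
    exact ((mem_annW _ _ _ _).mp hs).1
  have key : ∀ i ≤ k, i * (n + 1) + Module.finrank ℂ ↥(annW (S ^ (n + p)) x i) ≤
      Module.finrank ℂ ↥(S ^ (n + p)) := by
    intro i
    induction i with
    | zero => intro _; simp only [annW, zero_mul, zero_add]; exact le_rfl
    | succ i ih =>
      intro hi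
      have hi' := ih (Nat.le_of_succ_le hi)
      have := hfinW i
      have hrn := finrank_map_add_inf_ker (annW (S ^ (n + p)) x i) (ev (x i))
      obtain ⟨r, hr, hr0, hri⟩ := hch i (Nat.lt_of_succ_le hi)
      have hsub : (S ^ n).map (ev (r (x i))) ≤ (annW (S ^ (n + p)) x i).map (ev (x i)) := by
        rintro _ ⟨s, hs, rfl⟩
        refine ⟨s * r, ?_, rfl⟩
        refine (mem_annW _ _ _ _).mpr ⟨?_, ?_⟩
        · exact mul_mem_pow_add S h1 hs hr
        · intro j hj
          show s (r (x j)) = 0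
          rw [hr0 j hj, map_zero]
      have h2 := Submodule.finrank_mono hsub
      have h3 := growth_vector S h1 hfin hirr hX (r (x i)) hri n
      have h4 : annW (S ^ (n + p)) x (i + 1) = annW (S ^ (n + p)) x i ⊓ LinearMap.ker (ev (x i)) :=
        rfl
      rw [h4]
      have : (i + 1) * (n + 1) = i * (n + 1) + (n + 1) := by ring
      omega
  have := key k le_rfl
  omega

/-- Step 2: chains have bounded length. -/
theorem chain_le
    (h1 : 1 ∈ S) (C : ℕ)
    (hdim : ∀ n : ℕ, Module.Finite ℂ ↥(S ^ n) ∧ Module.finrank ℂ ↥(S ^ n) ≤ C * (n + 1))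
    (hirr : ∀ Y : Submodule ℂ X, IsClosed (Y : Set X) → (∀ s ∈ S, ∀ y ∈ Y, s y ∈ Y) →
      Y = ⊥ ∨ Y = ⊤)
    (hX : ¬ FiniteDimensional ℂ X) (x : ℕ → X) (k : ℕ)
    (hch : Chain (Algebra.adjoin ℂ (S : Set (X →L[ℂ] X)) : Set (X →L[ℂ] X)) x k) : k ≤ C := by
  obtain ⟨p, hp⟩ : ∃ p, Chain (S ^ p : Submodule ℂ (X →L[ℂ] X)) x k := by
    have : ∀ i, ∃ p, i < k → ∃ r ∈ S ^ p, (∀ j < i, r (x j) = 0) ∧ r (x i) ≠ 0 := by
      intro i
      by_cases hi : i < k
      · obtain ⟨r, hr, h⟩ := hch i hi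
        obtain ⟨p, hp⟩ := (mem_adjoin_iff S h1 r).mp hr
        exact ⟨p, fun _ => ⟨r, hp, h⟩⟩
      · exact ⟨0, fun h => absurd h hi⟩
    choose q hq using this
    refine ⟨(Finset.range k).sup q, fun i hi => ?_⟩
    obtain ⟨r, hr, h⟩ := hq i hi
    exact ⟨r, pow_mono_of_one_mem S h1 (Finset.le_sup (f := q) (Finset.mem_range.mpr hi)) hr, h⟩
  by_contra hlt
  push Not at hlt
  have h := chain_finrank S h1 (fun n => (hdim n).1) hirr hX x k p (C * p) hp
  have h' := (hdim (C * p + p)).2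
  have h3 : (C + 1) * (C * p + 1) ≤ k * (C * p + 1) := Nat.mul_le_mul_right _ hlt
  nlinarith

end Growth

end Pool.MP_b4ba8e
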