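import Pool.Agent.Lib.MP_b4ba8e_al.Growth1

/-!
# MP_b4ba8e_al : linear growth, part 2 (the left ideal and rank one elements).
-/

set_option autoImplicit false
set_option linter.unusedSectionVars false

namespace Pool.MP_b4ba8e

open Polynomial

variable {X : Type*} [NormedAddCommGroup X] [InnerProductSpace ℂ X] [CompleteSpace X]

/-- From bounded chains: a nonzero left ideal `L` all of whose nonzero elements have the same
kernel. -/
theorem exists_leftIdeal (R : Subalgebra ℂ (X →L[ℂ] X)) (C : ℕ) [Nontrivial X]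
    (hC : ∀ (x : ℕ → X) (k : ℕ), Chain (R : Set (X →L[ℂ] X)) x k → k ≤ C) :
    ∃ L : Set (X →L[ℂ] X), L ⊆ R ∧ (∀ r ∈ R, ∀ l ∈ L, r * l ∈ L) ∧ (∃ f ∈ L, f ≠ 0) ∧
      ∀ l₁ ∈ L, ∀ l₂ ∈ L, l₂ ≠ 0 → ∀ y, l₂ y = 0 → l₁ y = 0 := by
  classical
  have hex : ∃ k, (∃ x : ℕ → X, Chain (R : Set (X →L[ℂ] X)) x (k + 1)) ∧
      ∀ x : ℕ → X, ¬ Chain (R : Set (X →L[ℂ] X)) x (k + 2) := by
    by_contra hcon
    push Not at hcon
    obtain ⟨x₀, hx₀⟩ := exists_ne (0 : X)
    have hall : ∀ k, ∃ x : ℕ → X, Chain (R : Set (X →L[ℂ] X)) x (k + 1) := by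
      intro k
      induction k with
      | zero =>
        refine ⟨fun _ => x₀, ?_⟩
        intro i hi
        have : i = 0 := by omega
        subst this
        exact ⟨1, one_mem R, fun j hj => absurd hj (Nat.not_lt_zero j), hx₀⟩
      | succ k ih =>
        obtain ⟨x, hx⟩ := hcon k ih
        exact ⟨x, hx⟩
    obtain ⟨x, hx⟩ := hall C
    have := hC x (C + 1) hx
    omega
  obtain ⟨k, ⟨x, hx⟩, hmax⟩ := hex
  refine ⟨{r | r ∈ R ∧ ∀ j < k, r (x j) = 0}, fun r hr => hr.1, ?_, ?_, ?_⟩
  · rintro r hr l ⟨hl, hl0⟩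
    refine ⟨mul_mem hr hl, fun j hj => ?_⟩
    show r (l (x j)) = 0
    rw [hl0 j hj, map_zero]
  · obtain ⟨r, hr, hr0, hrk⟩ := hx k (Nat.lt_succ_self k)
    exact ⟨r, ⟨hr, hr0⟩, fun h => hrk (by rw [h]; rfl)⟩
  · rintro l₁ ⟨hl₁, hl₁0⟩ l₂ ⟨hl₂, hl₂0⟩ hne y hy
    by_contra hl₁y
    obtain ⟨z, hz⟩ : ∃ z, l₂ z ≠ 0 := by
      by_contra hcon
      push Not at hcon
      exact hne (ContinuousLinearMap.ext hcon)
    refine hmax (fun j => if j < k then x j else if j = k then y else z) ?_
    intro i hi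
    rcases lt_trichotomy i k with h | h | h
    · obtain ⟨r, hr, hr0, hrk⟩ := hx i (Nat.lt_succ_of_lt h)
      refine ⟨r, hr, fun j hj => ?_, ?_⟩
      · simp only [if_pos (lt_trans hj h)]
        exact hr0 j hj
      · simp only [if_pos h]
        exact hrk
    · subst h
      refine ⟨l₁, hl₁, fun j hj => ?_, ?_⟩
      · simp only [if_pos hj]
        exact hl₁0 j hj
      · simp only [lt_irrefl, if_false, if_true]
        exact hl₁y
    · have : i = k + 1 := by omega
      subst this
      refine ⟨l₂, hl₂, fun j hj => ?_, ?_⟩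
      · rcases Nat.lt_succ_iff_lt_or_eq.mp hj with h' | h'
        · simp only [if_pos h']
          exact hl₂0 j h'
        · subst h'
          simp only [lt_irrefl, if_false, if_true]
          exact hy
      · have h1 : ¬ (k + 1 < k) := by omega
        have h2 : k + 1 ≠ k := by omega
        simp only [h1, h2, if_false]
        exact hz

/-- In an irreducible `*`-algebra with bounded chains there is no rank one self-adjoint element:
here in the form `h R h ⊆ ℂ h²`. -/
theorem no_rank_one (R : Subalgebra ℂ (X →L[ℂ] X)) (hstar : ∀ r ∈ R, star r ∈ R)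
    (hirr : ∀ Y : Submodule ℂ X, IsClosed (Y : Set X) → (∀ r ∈ R, ∀ y ∈ Y, r y ∈ Y) →
      Y = ⊥ ∨ Y = ⊤)
    (hX : ¬ FiniteDimensional ℂ X) (C : ℕ)
    (hC : ∀ (x : ℕ → X) (k : ℕ), Chain (R : Set (X →L[ℂ] X)) x k → k ≤ C)
    (h : X →L[ℂ] X) (hR : h ∈ R) (hsa : star h = h) (h0 : h ≠ 0)
    (hcorner : ∀ r ∈ R, ∃ c : ℂ, h * r * h = c • (h * h)) : False := by
  have hsym : ∀ x y, inner ℂ (h x) y = inner ℂ x (h y) := by
    intro x y
    rw [← ContinuousLinearMap.adjoint_inner_right, ← ContinuousLinearMap.star_eq_adjoint, hsa]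
  have hhzero : ∀ x, h (h x) = 0 → h x = 0 := by
    intro x hx
    have : inner ℂ (h x) (h x) = (0 : ℂ) := by
      rw [hsym, hx, inner_zero_right]
    exact inner_self_eq_zero.mp this
  obtain ⟨x₀, hx₀⟩ : ∃ x, h x ≠ 0 := by
    by_contra hcon
    push Not at hcon
    exact h0 (ContinuousLinearMap.ext hcon)
  set w : X := h (h x₀) with hw
  have hw0 : w ≠ 0 := fun e => hx₀ (hhzero _ e)
  -- every closed submodule containing `R v` with `v ≠ 0` is everything
  have hdense : ∀ v : X, v ≠ 0 →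
      ((R.toSubmodule.map (ev v)).topologicalClosure : Submodule ℂ X) = ⊤ := by
    intro v hv
    have hcl : IsClosed (((R.toSubmodule.map (ev v)).topologicalClosure : Submodule ℂ X) : Set X) :=
      Submodule.isClosed_topologicalClosure _
    have hinv : ∀ r ∈ R, ∀ y ∈ (R.toSubmodule.map (ev v)).topologicalClosure,
        r y ∈ (R.toSubmodule.map (ev v)).topologicalClosure := by
      intro r hr y hy
      have hmap : Set.MapsTo r ((R.toSubmodule.map (ev v) : Submodule ℂ X) : Set X)
          ((R.toSubmodule.map (ev v) : Submodule ℂ X) : Set X) := by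
        rintro _ ⟨t, ht, rfl⟩
        exact ⟨r * t, mul_mem (S := Subalgebra ℂ (X →L[ℂ] X)) hr ht, rfl⟩
      have := hmap.closure r.continuous
      exact this hy
    rcases hirr _ hcl hinv with hb | ht
    · exfalso
      have : v ∈ (R.toSubmodule.map (ev v)).topologicalClosure :=
        Submodule.le_topologicalClosure _ ⟨1, one_mem R, rfl⟩
      rw [hb] at this
      exact hv (by simpa using this)
    · exact ht
  -- range of `h` is `ℂ w`
  have hrange : ∀ z, ∃ c : ℂ, h z = c • w := by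
    intro z
    have hz : z ∈ (R.toSubmodule.map (ev (h x₀))).topologicalClosure := by
      rw [hdense _ hx₀]; trivial
    have hmap : Set.MapsTo h ((R.toSubmodule.map (ev (h x₀)) : Submodule ℂ X) : Set X)
        ((ℂ ∙ w : Submodule ℂ X) : Set X) := by
      rintro _ ⟨t, ht, rfl⟩
      obtain ⟨c, hc⟩ := hcorner t ht
      have : h (t (h x₀)) = c • w := by
        have := congrArg (fun T : X →L[ℂ] X => T x₀) hc
        exact this
      show h (t (h x₀)) ∈ (ℂ ∙ w : Submodule ℂ X)
      rw [this]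
      exact Submodule.smul_mem _ _ (Submodule.mem_span_singleton_self w)
    have h1 := hmap.closure h.continuous hz
    have hcl : IsClosed ((ℂ ∙ w : Submodule ℂ X) : Set X) :=
      Submodule.closed_of_finiteDimensional _
    rw [hcl.closure_eq] at h1
    obtain ⟨c, hc⟩ := Submodule.mem_span_singleton.mp h1
    exact ⟨c, hc.symm⟩
  obtain ⟨c₀, hc₀⟩ := hrange w
  have hc₀0 : c₀ ≠ 0 := by
    intro hc
    rw [hc, zero_smul] at hc₀
    have : w = 0 := hhzero _ hc₀
    exact hw0 this
  -- formula for `h`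
  have hww : (inner ℂ w w : ℂ) ≠ 0 := fun e => hw0 (inner_self_eq_zero.mp e)
  obtain ⟨γ, hγ0, hγ⟩ : ∃ γ : ℂ, γ ≠ 0 ∧ ∀ z, h z = (γ * inner ℂ w z) • w := by
    refine ⟨(starRingEnd ℂ) c₀ / inner ℂ w w, ?_, ?_⟩
    · exact div_ne_zero ((_root_.map_ne_zero _).mpr hc₀0) hww
    · intro z
      obtain ⟨c, hc⟩ := hrange z
      have h1 : inner ℂ w (h z) = c * inner ℂ w w := by
        rw [hc, inner_smul_right]
      have h2 : inner ℂ w (h z) = (starRingEnd ℂ) c₀ * inner ℂ w z := by
        rw [← hsym, hc₀, inner_smul_left]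
      rw [hc]
      congr 1
      field_simp
      rw [← h1, h2]
  -- the infinite-dimensional space `R w`
  set Y₀ : Submodule ℂ X := R.toSubmodule.map (ev w) with hY₀
  have hY₀inf : ¬ FiniteDimensional ℂ Y₀ := by
    intro hfin
    apply hX
    have hcl : IsClosed (Y₀ : Set X) := Submodule.closed_of_finiteDimensional _
    have h1 : Y₀ = ⊤ := by
      rw [← hdense w hw0]
      exact (IsClosed.submodule_topologicalClosure_eq hcl).symm
    have : Module.Finite ℂ (⊤ : Submodule ℂ X) := by
      rw [← h1]; exact hfin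
    exact Module.finite_def.mpr ((Submodule.fg_top _).mp this.fg_top)
  let bas := Module.Basis.ofVectorSpace ℂ Y₀
  have hinf : Infinite (Module.Basis.ofVectorSpaceIndex ℂ Y₀) := by
    by_contra hcon
    rw [not_infinite_iff_finite] at hcon
    exact hY₀inf (Module.Finite.of_basis bas)
  let e := Infinite.natEmbedding (Module.Basis.ofVectorSpaceIndex ℂ Y₀)
  let f : ℕ → X := fun n => (bas (e n) : X)
  have hf : LinearIndependent ℂ f := by
    have h1 : LinearIndependent ℂ (fun n => bas (e n)) :=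
      bas.linearIndependent.comp e e.injective
    exact h1.map' Y₀.subtype (Submodule.ker_subtype _)
  have hfY : ∀ n, f n ∈ Y₀ := fun n => (bas (e n)).2
  let v : ℕ → X := InnerProductSpace.gramSchmidt ℂ f
  have hv0 : ∀ n, v n ≠ 0 := fun n => InnerProductSpace.gramSchmidt_ne_zero n hf
  have hvorth : ∀ m n, m ≠ n → inner ℂ (v m) (v n) = (0 : ℂ) := fun m n hmn =>
    InnerProductSpace.gramSchmidt_orthogonal ℂ f hmn
  have hvY : ∀ n, v n ∈ Y₀ := by
    intro n
    have h1 := InnerProductSpace.gramSchmidt_mem_span ℂ f (le_refl n)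
    refine (Submodule.span_le.mpr ?_) h1
    rintro _ ⟨m, _, rfl⟩
    exact hfY m
  choose b hbR hb using hvY
  have hchain : Chain (R : Set (X →L[ℂ] X)) v (C + 1) := by
    intro i _
    have hform : ∀ z, (b i * h * star (b i)) z = (γ * inner ℂ (v i) z) • v i := by
      intro z
      have hbi : b i w = v i := hb i
      show b i (h (star (b i) z)) = _
      rw [hγ, map_smul, hbi, ContinuousLinearMap.star_eq_adjoint,
        ContinuousLinearMap.adjoint_inner_right, hbi]
    refine ⟨b i * h * star (b i), ?_, ?_, ?_⟩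
    · exact mul_mem (mul_mem (S := Subalgebra ℂ (X →L[ℂ] X)) (hbR i) hR) (hstar _ (hbR i))
    · intro j hj
      rw [hform, hvorth i j (Nat.ne_of_gt hj), mul_zero, zero_smul]
    · rw [hform]
      exact smul_ne_zero (mul_ne_zero hγ0 (fun e => hv0 i (inner_self_eq_zero.mp e))) (hv0 i)
  have := hC v (C + 1) hchain
  omega

end Pool.MP_b4ba8e
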